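import Pool.Agent.TH80.OMS.SymDefs
import Pool.Agent.Y368.CL.Met

/-!
# Definitions: diffeomorphisms which are conjugate by homeomorphisms close to the identity, sparse
periodic pseudo-orbits

`Omega F`: the nonwandering set; `Per F`: the periodic points (`Pool/Agent/TH80/OMS/{Defs,SymDefs}`).
-/

set_option autoImplicit false

open scoped Manifold ContDiff Topology
open Filter Set Metric

universe u

namespace Pool.Agent.V8H52.OS

open Pool.Agent.H718R2.G Pool.Agent.TH80.OMS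

section

variable {N : Type u} [MetricSpace N]

/-- There is a homeomorphism `h : Ω(G) → Ω(G')` with `h ∘ G = G' ∘ h` and `d(h x, x) ≤ δ`. -/
def NearConj (δ : ℝ) (G G' : N → N) : Prop :=
  ∃ h : Omega G ≃ₜ Omega G', (∀ x y : Omega G, G x = y → G' (h x) = h y) ∧
    ∀ x : Omega G, dist (h x : N) x ≤ δ

/-- There is a map `β` (not necessarily continuous) with `β ∘ G = G' ∘ β` and `d(β x, x) ≤ δ` on
`Ω(G)`, which maps `Per(G)` bijectively onto `Per(G')`. So the `G'`-orbit of `β x` follows the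
`G`-orbit of `x ∈ Ω(G)` for all times, at distance at most `δ`. -/
def Follows (δ : ℝ) (G G' : N → N) : Prop :=
  ∃ β : N → N, (∀ x ∈ Omega G, β (G x) = G' (β x) ∧ dist (β x) x ≤ δ) ∧ BijOn β (Per G) (Per G')

/-- There is a bijection `β : Per(G) → Per(G')` with `β ∘ G = G' ∘ β` and `d(β x, x) ≤ δ`. -/
def PerNear (δ : ℝ) (G G' : N → N) : Prop :=
  ∃ β : N → N, BijOn β (Per G) (Per G') ∧ ∀ x ∈ Per G, β (G x) = G' (β x) ∧ dist (β x) x ≤ δ

/-- A sparse periodic pseudo-orbit `x 0, ..., x m = x 0`: each `x (i+1)` is either equal to `G (x i)`,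
or at distance at most `κ ρ^k` from it, where `0 < ρ < κ` and all the other points of the
pseudo-orbit are at distance at least `ρ` from `x (i+1)`. -/
structure SparseOrbit (G : N → N) (k : ℕ) (κ : ℝ) (m : ℕ) (x : ℕ → N) : Prop where
  pos : 1 ≤ m
  per : x m = x 0
  jump : ∀ i < m, G (x i) = x (i + 1) ∨ ∃ ρ : ℝ, 0 < ρ ∧ ρ < κ ∧
    dist (G (x i)) (x (i + 1)) ≤ κ * ρ ^ k ∧ ∀ j, 1 ≤ j → j ≤ m → j ≠ i + 1 → ρ ≤ dist (x j) (x (i + 1))

/-- All sparse periodic pseudo-orbits are `δ`-shadowed by periodic orbits of the same period. -/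
def Shadows (δ : ℝ) (G : N → N) (k : ℕ) (κ : ℝ) : Prop :=
  ∀ (m : ℕ) (x : ℕ → N), SparseOrbit G k κ m x → ∃ p : N, G^[m] p = p ∧
    ∀ i ≤ m, dist (G^[i] p) (x i) ≤ δ

end

end Pool.Agent.V8H52.OS
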