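import Pool.Agent.V8H52.OS.Gam
import Pool.Agent.V8H52.OS.Defs

/-!
# Neighbourhoods with generically continuous conjugacies
-/

set_option autoImplicit false
set_option linter.unusedSectionVars false

open scoped Manifold ContDiff Topology
open Filter Set Metric

universe u v

namespace Pool.Agent.V8H52.OS

open Pool.Agent.H718R2.G Pool.Agent.TH80.OMS Pool.Agent.Y504.CO

theorem transfer {K N : Type*} {S T : Set K} {γ₁ γ₂ : K → N} {P₁ P₂ : Set N} (hT : InjOn γ₁ T)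
    (hST : S ⊆ T) (h₁ : BijOn γ₁ S P₁) (h₂ : BijOn γ₂ S P₂) :
    ∃ β : N → N, (∀ x ∈ T, β (γ₁ x) = γ₂ x) ∧ BijOn β P₁ P₂ := by
  classical
  have hβ : ∃ β : N → N, ∀ x ∈ T, β (γ₁ x) = γ₂ x := by
    refine ⟨fun p => if h : ∃ x ∈ T, γ₁ x = p then γ₂ h.choose else p, fun x hx => ?_⟩
    have h : ∃ y ∈ T, γ₁ y = γ₁ x := ⟨x, hx, rfl⟩
    simp only [dif_pos h]
    rw [hT h.choose_spec.1 hx h.choose_spec.2]
  obtain ⟨β, hβ⟩ := hβ
  refine ⟨β, hβ, ?_, ?_, ?_⟩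
  · intro p hp
    obtain ⟨x, hx, rfl⟩ := h₁.surjOn hp
    rw [hβ x (hST hx)]
    exact h₂.mapsTo hx
  · intro p hp q hq hpq
    obtain ⟨x, hx, rfl⟩ := h₁.surjOn hp
    obtain ⟨y, hy, rfl⟩ := h₁.surjOn hq
    rw [hβ x (hST hx), hβ y (hST hy)] at hpq
    rw [h₂.injOn hx hy hpq]
  · intro p hp
    obtain ⟨x, hx, rfl⟩ := h₂.surjOn hp
    exact ⟨γ₁ x, h₁.mapsTo hx, hβ x (hST hx)⟩

theorem conj_of_conj {N : Type u} [TopologicalSpace N] {F G G' : N → N} (hF : Continuous F)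
    (h : OmegaConj F G) (h' : OmegaConj F G') : OmegaConj G G' := by
  obtain ⟨φ, hφ⟩ := h
  obtain ⟨φ', hφ'⟩ := h'
  refine ⟨φ.symm.trans φ', fun x y hxy => ?_⟩
  exact hφ' _ _ (conj_symm hF φ hφ x y hxy)

section

variable {n : ℕ} {N : Type u} [MetricSpace N] [CompactSpace N]
  [ChartedSpace (V n) N] [IsManifold (𝓡 n) ∞ N]

/-- An open set of parameters of `Ω`-stable diffeomorphisms, with conjugacies close to the identity
between nearby maps outside of the meagre set `M`. -/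
structure Good {r : ℕ∞} {P : Type v} [TopologicalSpace P] (E : P → DiffM n N r) (U M : Set P) :
    Prop where
  opn : IsOpen U
  mea : IsMeagre M
  stab : ∀ G ∈ U, OmegaStable n N r (E G)
  near : ∀ G ∈ U, G ∉ M → ∀ δ : ℝ, 0 < δ → ∃ W : Set P, IsOpen W ∧
    G ∈ W ∧ W ⊆ U ∧ (∀ G₁ ∈ W, G₁ ∉ M → ∀ G₂ ∈ W, G₂ ∉ M → NearConj δ (E G₁) (E G₂)) ∧
    (∀ G₁ ∈ W, G₁ ∉ M → ∀ G₂ ∈ W, Follows δ (E G₁) (E G₂)) ∧
    ∀ G₁ ∈ W, ∀ G₂ ∈ W, PerNear δ (E G₁) (E G₂)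

/-- the homeomorphism onto the nonwandering set -/
theorem homeo_of {K : Type*} [TopologicalSpace K] [CompactSpace K] {N : Type*} [TopologicalSpace N]
    [T2Space N] (φ : C(K, N)) {S : Set N} (hi : Function.Injective φ) (hr : range φ = S) :
    ∃ H : K ≃ₜ S, ∀ x, (H x : N) = φ x := by
  subst hr
  let e : K ≃ range φ := Equiv.ofInjective φ hi
  have he : Continuous e := by
    refine Continuous.subtype_mk φ.continuous _
  exact ⟨he.homeoOfEquivCompactToT2, fun x => rfl⟩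

theorem local_good {r : ℕ∞} (hr : 1 ≤ r) {P : Type v} [TopologicalSpace P]
    {E : P → DiffM n N r} (hE : ContE E) {s : P} (hF : OmegaStable n N r (E s)) :
    ∃ U M : Set P, Good E U M ∧ s ∈ U := by
  obtain ⟨F, hFs⟩ : ∃ F, F = E s := ⟨_, rfl⟩
  rw [← hFs] at hF
  obtain ⟨U₀, hU₀, hFU₀, hconj₀⟩ := hF
  set U : Set P := E ⁻¹' U₀ with hUd
  have hU : IsOpen U := hE U₀ hU₀
  have hconj : ∀ G ∈ U, OmegaConj F (E G) := fun G hG => hconj₀ (E G) hG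
  have hstab : ∀ G ∈ U, OmegaStable n N r (E G) := fun G hG =>
    ⟨U₀, hU₀, hG, fun G' hG' => conj_of_conj F.continuous (hconj G hG) (hconj₀ G' hG')⟩
  haveI hcpt : CompactSpace (Omega F) := isCompact_iff_compactSpace.1 (om_closed F).isCompact
  haveI : Nonempty C(Omega F, N) := ⟨⟨Subtype.val, continuous_subtype_val⟩⟩
  obtain ⟨M, h, hM, hh⟩ := generic_conj (fun G : P => (E G : N → N))
    (joint_cont_fam hr hE) (res F.continuous)
  have hex : ∀ G ∈ U, ∃ φ : C(Omega F, N), Function.Injective φ ∧ range φ = Om (E G) ∧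
      ∀ x, φ (res F.continuous x) = E G (φ x) := by
    intro G hG
    obtain ⟨φ, hφ⟩ := hconj G hG
    refine ⟨⟨fun x => (φ x : N), continuous_subtype_val.comp φ.continuous⟩, ?_, ?_, ?_⟩
    · intro x y hxy
      exact φ.injective (Subtype.ext hxy)
    · ext y
      constructor
      · rintro ⟨x, rfl⟩
        exact (φ x).2
      · intro hy
        refine ⟨φ.symm ⟨y, hy⟩, ?_⟩
        show (φ (φ.symm ⟨y, hy⟩) : N) = y
        rw [φ.apply_symm_apply]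
    · intro x
      exact (hφ x (res F.continuous x) rfl).symm
  -- the closed meagre set
  set M0 : Set P := closure (⋃₀ {O | IsOpen O ∧ IsMeagre (univ ∩ O)}) with hM0
  have hM0m : IsMeagre M0 := by
    have := meagre_sUnion (univ : Set P)
    rwa [univ_inter] at this
  have hcat : ∀ O : Set P, IsOpen O → O ⊆ M0ᶜ → O.Nonempty → ∃ G ∈ O, G ∉ M ∪ M0 := by
    intro O hO hOM hne
    by_contra hcon
    push Not at hcon
    obtain ⟨G, hG⟩ := hne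
    refine hOM hG (subset_closure ⟨O, ⟨hO, ?_⟩, hG⟩)
    refine (hM.union hM0m).mono ?_
    rintro G' ⟨-, hG'⟩
    exact hcon G' hG'
  refine ⟨U, M ∪ M0, ⟨hU, hM.union hM0m, hstab, ?_⟩, by rw [hUd, mem_preimage, ← hFs]; exact hFU₀⟩
  intro G hG hGM δ hδ
  have hGM1 : G ∉ M := fun h => hGM (Or.inl h)
  have hGM0 : G ∉ M0 := fun h => hGM (Or.inr h)
  obtain ⟨-, hcont⟩ := hh G hGM1 (hex G hG)
  obtain ⟨W₀, hW₀, hGW₀, hnear⟩ := hcont (δ / 2) (by positivity)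
  have hWo : IsOpen ((W₀ ∩ U) ∩ M0ᶜ) := (hW₀.inter hU).inter isClosed_closure.isOpen_compl
  have hh' : ∀ G ∈ U, G ∉ M ∪ M0 → Function.Injective (h G) ∧ range (h G) = Omega (E G) ∧
      ∀ x : Omega F, h G (res F.continuous x) = E G (h G x) := fun G hG hGM =>
    (hh G (fun hc => hGM (Or.inl hc)) (hex G hG)).1
  have hd : ∀ G₁ ∈ (W₀ ∩ U) ∩ M0ᶜ, G₁ ∉ M ∪ M0 → ∀ x, dist (h G₁ x) (h G x) ≤ δ / 2 := by
    rintro G₁ ⟨⟨h1, h2⟩, h3⟩ h4 x
    exact (ContinuousMap.dist_apply_le_dist x).trans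
      (hnear G₁ h1 (fun h => h4 (Or.inl h)) (hex G₁ h2)).le
  have hgam : ∀ G' ∈ (W₀ ∩ U) ∩ M0ᶜ, ∃ γ : Omega F → N,
      (∀ x, γ (res F.continuous x) = E G' (γ x)) ∧
      (∀ x, dist (γ x) (h G x) ≤ δ / 2) ∧ BijOn γ {x | (x : N) ∈ Per F} (Per (E G')) := by
    intro G' hG'
    refine exists_gamma hr hE hconj hstab h hh' hWo (fun G hG => hG.1.2) ?_ (fun x => h G x) hd hG'
    intro O hO hOW hne
    exact hcat O hO (fun G hG => (hOW hG).2) hne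
  have hbij : ∀ G₁ ∈ U, G₁ ∉ M ∪ M0 → BijOn (h G₁) {x | (x : N) ∈ Per F} (Per (E G₁)) := by
    intro G₁ hG₁ hG₁M
    obtain ⟨e1, e2, e3⟩ := hh' G₁ hG₁ hG₁M
    refine ⟨?_, e1.injOn, ?_⟩
    · rintro x ⟨m, hm, hx⟩
      refine ⟨m, hm, ?_⟩
      rw [← eqv_iter e3 m x]
      congr 1
      exact Subtype.ext ((res_iter F.continuous m x).trans hx)
    · rintro p ⟨m, hm, hp⟩
      have hpO : p ∈ range (h G₁) := by rw [e2]; exact per_mem_omega hm hp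
      obtain ⟨x, rfl⟩ := hpO
      refine ⟨x, ⟨m, hm, ?_⟩, rfl⟩
      rw [← eqv_iter e3 m x] at hp
      have h1 := e1 hp
      rw [← res_iter F.continuous m x, h1]
  refine ⟨(W₀ ∩ U) ∩ M0ᶜ, hWo, ⟨⟨hGW₀, hG⟩, hGM0⟩, fun G hG => hG.1.2, ?_, ?_, ?_⟩
  · intro G₁ hG₁ hG₁M G₂ hG₂ hG₂M
    obtain ⟨a1, a2, a3⟩ := hh' G₁ hG₁.1.2 hG₁M
    obtain ⟨b1, b2, b3⟩ := hh' G₂ hG₂.1.2 hG₂M
    obtain ⟨H₁, hH₁⟩ := homeo_of (h G₁) a1 a2
    obtain ⟨H₂, hH₂⟩ := homeo_of (h G₂) b1 b2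
    refine ⟨H₁.symm.trans H₂, ?_, ?_⟩
    · intro x y hxy
      obtain ⟨x', rfl⟩ := H₁.surjective x
      obtain ⟨y', rfl⟩ := H₁.surjective y
      have h1 : y' = res F.continuous x' := by
        apply a1
        rw [a3, ← hH₁, ← hH₁]
        exact hxy.symm
      subst h1
      simp only [Homeomorph.trans_apply, Homeomorph.symm_apply_apply]
      rw [hH₂, hH₂]
      exact (b3 x').symm
    · intro x
      obtain ⟨x', rfl⟩ := H₁.surjective x
      simp only [Homeomorph.trans_apply, Homeomorph.symm_apply_apply]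
      rw [hH₂, hH₁]
      have h1 := hd G₁ hG₁ hG₁M x'
      have h2 := hd G₂ hG₂ hG₂M x'
      rw [dist_comm] at h1
      linarith [dist_triangle (h G₂ x') (h G x') (h G₁ x')]
  · intro G₁ hG₁ hG₁M G₂ hG₂
    obtain ⟨a1, a2, a3⟩ := hh' G₁ hG₁.1.2 hG₁M
    obtain ⟨γ, c1, c2, c3⟩ := hgam G₂ hG₂
    obtain ⟨β, hβ1, hβ2⟩ := transfer (T := univ) a1.injOn (subset_univ _)
      (hbij G₁ hG₁.1.2 hG₁M) c3
    refine ⟨β, fun x hx => ?_, hβ2⟩
    rw [← a2] at hx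
    obtain ⟨x', rfl⟩ := hx
    refine ⟨?_, ?_⟩
    · rw [← a3, hβ1 _ trivial, hβ1 _ trivial, c1]
    · rw [hβ1 _ trivial]
      have h1 := hd G₁ hG₁ hG₁M x'
      have h2 := c2 x'
      rw [dist_comm] at h1
      linarith [dist_triangle (γ x') (h G x') (h G₁ x')]
  · intro G₁ hG₁ G₂ hG₂
    obtain ⟨γ₁, b1, b2, b3⟩ := hgam G₁ hG₁
    obtain ⟨γ, c1, c2, c3⟩ := hgam G₂ hG₂
    obtain ⟨β, hβ1, hβ2⟩ := transfer b3.injOn Subset.rfl b3 c3
    refine ⟨β, hβ2, fun x hx => ?_⟩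
    obtain ⟨x', hx', rfl⟩ := b3.surjOn hx
    have hres : res F.continuous x' ∈ {x : Omega F | (x : N) ∈ Per F} := by
      obtain ⟨m, hm, hx''⟩ := hx'
      refine ⟨m, hm, ?_⟩
      show F^[m] (F x') = F x'
      rw [← Function.iterate_succ_apply, Function.iterate_succ_apply', hx'']
    refine ⟨?_, ?_⟩
    · rw [← b1, hβ1 _ hres, hβ1 _ hx', c1]
    · rw [hβ1 _ hx']
      have h1 := b2 x'
      have h2 := c2 x'
      rw [dist_comm] at h1
      linarith [dist_triangle (γ x') (h G x') (γ₁ x')]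

end

end Pool.Agent.V8H52.OS
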