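import Pool.Agent.V8H52.OS.Kernel

/-!
# Uniformization of closed subsets of `X × ℕ^ℕ` up to meagre sets, for arbitrary topological spaces `X`
-/

set_option autoImplicit false

open Set Filter Topology

namespace Pool.Agent.V8H52.OS

variable {X : Type*} [TopologicalSpace X]

/-- the largest open set in which `S` is meagre -/
def Mo (S : Set X) : Set X := ⋃₀ {O : Set X | IsOpen O ∧ IsMeagre (S ∩ O)}

theorem isOpen_Mo (S : Set X) : IsOpen (Mo S) := isOpen_sUnion fun _ h => h.1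

theorem meagre_Mo (S : Set X) : IsMeagre (S ∩ Mo S) :=
  (meagre_sUnion S).mono (inter_subset_inter_right _ subset_closure)

theorem subset_Mo {S O : Set X} (hO : IsOpen O) (h : IsMeagre (S ∩ O)) : O ⊆ Mo S :=
  subset_sUnion_of_mem ⟨hO, h⟩

/-- a point outside of `Mo S` is in the closure of `S` -/
theorem not_Mo {S : Set X} {x : X} (hx : x ∉ Mo S) {O : Set X} (hO : IsOpen O) (hxO : x ∈ O) :
    (S ∩ O).Nonempty := by
  by_contra h
  rw [not_nonempty_iff_eq_empty] at h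
  exact hx (subset_Mo hO (by rw [h]; exact IsMeagre.empty) hxO)

/-- the projection of the part of `C` over the cylinder `s` -/
def Pr (C : Set (X × (ℕ → ℕ))) (s : List ℕ) : Set X :=
  {x | ∃ σ : ℕ → ℕ, (∀ (i : ℕ) (h : i < s.length), σ i = s[i]) ∧ (x, σ) ∈ C}

theorem Pr_succ (C : Set (X × (ℕ → ℕ))) (s : List ℕ) : Pr C s = ⋃ k, Pr C (s ++ [k]) := by
  ext x
  simp only [Pr, Set.mem_ofPred_eq, mem_iUnion]
  constructor
  · rintro ⟨σ, h1, h2⟩
    refine ⟨σ s.length, σ, fun i hi => ?_, h2⟩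
    rw [List.length_append, List.length_singleton] at hi
    rcases Nat.lt_or_ge i s.length with h | h
    · rw [List.getElem_append_left h]; exact h1 i h
    · have : i = s.length := by omega
      subst this
      simp
  · rintro ⟨k, σ, h1, h2⟩
    refine ⟨σ, fun i hi => ?_, h2⟩
    rw [h1 i (by rw [List.length_append]; omega), List.getElem_append_left hi]

/-- Key: `P_s` is accounted for by the `P_{sk}`. -/
theorem meagre_Z (C : Set (X × (ℕ → ℕ))) (s : List ℕ) :
    IsMeagre ((Mo (Pr C s))ᶜ ∩ ⋂ k, Mo (Pr C (s ++ [k]))) := by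
  set P := Pr C s with hP
  set G : Set X := ⋂ k, Mo (Pr C (s ++ [k])) with hG
  have h1 : IsMeagre (P ∩ G) := by
    have h2 : P ∩ G ⊆ ⋃ k, Pr C (s ++ [k]) ∩ Mo (Pr C (s ++ [k])) := by
      rintro x ⟨hxP, hxG⟩
      rw [hP, Pr_succ] at hxP
      obtain ⟨k, hk⟩ := mem_iUnion.1 hxP
      exact mem_iUnion.2 ⟨k, hk, mem_iInter.1 hxG k⟩
    exact (isMeagre_iUnion fun k => meagre_Mo _).mono h2
  have hBG : BaireMeasurableSet G := BaireMeasurableSet.iInter fun k => (isOpen_Mo _).baireMeasurableSet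
  obtain ⟨V, hV, hGV⟩ := hBG.residualEq_isOpen
  have hVG : IsMeagre (V \ G) := by
    rw [IsMeagre]
    filter_upwards [hGV] with x hx
    have hx' : (x ∈ G) = (x ∈ V) := hx
    rintro ⟨h3, h4⟩
    exact h4 (hx'.mpr h3)
  have hGV' : IsMeagre (G \ V) := by
    rw [IsMeagre]
    filter_upwards [hGV] with x hx
    have hx' : (x ∈ G) = (x ∈ V) := hx
    rintro ⟨h3, h4⟩
    exact h4 (hx'.mp h3)
  have hVP : V ⊆ Mo P := by
    refine subset_Mo hV ((h1.union hVG).mono ?_)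
    rintro x ⟨hx1, hx2⟩
    by_cases hx : x ∈ G
    · exact Or.inl ⟨hx1, hx⟩
    · exact Or.inr ⟨hx2, hx⟩
  refine hGV'.mono ?_
  rintro x ⟨hx1, hx2⟩
  exact ⟨hx2, fun h => hx1 (hVP h)⟩

/-- the exceptional meagre set -/
def Exc (C : Set (X × (ℕ → ℕ))) : Set X :=
  (⋃ s : List ℕ, (Mo (Pr C s))ᶜ ∩ ⋂ k, Mo (Pr C (s ++ [k]))) ∪
    (⋃ s : List ℕ, frontier (Mo (Pr C s))) ∪ (Pr C [] ∩ Mo (Pr C []))

theorem meagre_Exc (C : Set (X × (ℕ → ℕ))) : IsMeagre (Exc C) := by
  refine ((isMeagre_iUnion fun s => meagre_Z C s).union (isMeagre_iUnion fun s => ?_)).union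
    (meagre_Mo _)
  have h4 : IsNowhereDense (frontier (Mo (Pr C s))) := by
    rw [IsNowhereDense, isClosed_frontier.closure_eq, ← frontier_compl]
    exact interior_frontier (isOpen_Mo _).isClosed_compl
  exact h4.isMeagre

open Classical in
/-- the branch -/
noncomputable def br (C : Set (X × (ℕ → ℕ))) (x : X) : ℕ → List ℕ
  | 0 => []
  | n + 1 => br C x n ++ [if h : ∃ k, x ∉ Mo (Pr C (br C x n ++ [k])) then Nat.find h else 0]

theorem br_len (C : Set (X × (ℕ → ℕ))) (x : X) (n : ℕ) : (br C x n).length = n := by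
  induction n with
  | zero => rfl
  | succ n ih => rw [br, List.length_append, ih]; rfl

theorem br_not {C : Set (X × (ℕ → ℕ))} {x : X} (hx : x ∉ Exc C) (hx0 : x ∈ Pr C []) (n : ℕ) :
    x ∉ Mo (Pr C (br C x n)) := by
  classical
  induction n with
  | zero => exact fun h => hx (Or.inr ⟨hx0, h⟩)
  | succ n ih =>
    have h : ∃ k, x ∉ Mo (Pr C (br C x n ++ [k])) := by
      by_contra hcon
      push Not at hcon
      exact hx (Or.inl (Or.inl (mem_iUnion.2 ⟨br C x n, ih, mem_iInter.2 hcon⟩)))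
    rw [br, dif_pos h]
    exact Nat.find_spec h

/-- the selected point -/
noncomputable def sel (C : Set (X × (ℕ → ℕ))) (x : X) (n : ℕ) : ℕ :=
  (br C x (n + 1))[n]'(by rw [br_len]; omega)

theorem br_get (C : Set (X × (ℕ → ℕ))) (x : X) (n i : ℕ) (h : i < (br C x n).length) :
    (br C x n)[i] = sel C x i := by
  induction n with
  | zero => simp [br] at h
  | succ n ih =>
    have hl := br_len C x n
    have h' : i < n + 1 := by rwa [br_len] at h
    rcases Nat.lt_or_ge i n with h1 | h1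
    · have h2 : i < (br C x n).length := by omega
      rw [← ih h2]
      simp only [br]
      rw [List.getElem_append_left h2]
    · have : i = n := by omega
      subst this
      rfl

theorem sel_mem {C : Set (X × (ℕ → ℕ))} (hC : IsClosed C) {x : X} (hx : x ∉ Exc C)
    (hx0 : x ∈ Pr C []) : (x, sel C x) ∈ C := by
  refine hC.closure_subset ?_
  rw [mem_closure_iff_nhds]
  intro T hT
  rw [nhds_prod_eq, Filter.mem_prod_iff] at hT
  obtain ⟨A, hA, B, hB, hAB⟩ := hT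
  obtain ⟨A', hA'A, hA'o, hxA'⟩ := mem_nhds_iff.1 hA
  -- cylinder
  obtain ⟨n, hn⟩ : ∃ n : ℕ, ∀ σ : ℕ → ℕ, (∀ i < n, σ i = sel C x i) → σ ∈ B := by
    rw [nhds_pi, Filter.mem_pi] at hB
    obtain ⟨I, hI, t, ht, hsub⟩ := hB
    obtain ⟨n, hn⟩ := hI.bddAbove
    refine ⟨n + 1, fun σ hσ => hsub fun i hi => ?_⟩
    rw [hσ i (Nat.lt_succ_of_le (hn hi))]
    exact mem_of_mem_nhds (ht i)
  obtain ⟨y, ⟨σ, hσ, hyσ⟩, hyA⟩ := not_Mo (br_not hx hx0 n) hA'o hxA'
  refine ⟨(y, σ), hAB ⟨hA'A hyA, hn σ fun i hi => ?_⟩, hyσ⟩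
  have h1 : i < (br C x n).length := by rw [br_len]; exact hi
  rw [hσ i h1, br_get]

theorem br_cont {C : Set (X × (ℕ → ℕ))} {x : X} (hx : x ∉ Exc C) (hx0 : x ∈ Pr C []) (n : ℕ) :
    ∃ W : Set X, IsOpen W ∧ x ∈ W ∧ ∀ y ∈ W, y ∉ Exc C → y ∈ Pr C [] → br C y n = br C x n := by
  classical
  induction n with
  | zero => exact ⟨univ, isOpen_univ, trivial, fun _ _ _ _ => rfl⟩
  | succ n ih =>
    obtain ⟨W, hW, hxW, h⟩ := ih
    have hex : ∀ z : X, z ∉ Exc C → z ∈ Pr C [] → ∃ k, z ∉ Mo (Pr C (br C z n ++ [k])) := by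
      intro z hz hz0
      by_contra hcon
      push Not at hcon
      exact hz (Or.inl (Or.inl (mem_iUnion.2 ⟨br C z n, br_not hz hz0 n, mem_iInter.2 hcon⟩)))
    have hxe := hex x hx hx0
    set k := Nat.find hxe with hk
    have hk1 : x ∉ Mo (Pr C (br C x n ++ [k])) := Nat.find_spec hxe
    have hk2 : ∀ j < k, x ∈ Mo (Pr C (br C x n ++ [j])) := fun j hj => by
      by_contra hcon
      exact Nat.find_min hxe hj hcon
    have hk3 : x ∈ (closure (Mo (Pr C (br C x n ++ [k]))))ᶜ := by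
      intro hcl
      apply hx
      refine Or.inl (Or.inr (mem_iUnion.2 ⟨br C x n ++ [k], hcl, ?_⟩))
      rw [(isOpen_Mo _).interior_eq]
      exact hk1
    refine ⟨W ∩ (closure (Mo (Pr C (br C x n ++ [k]))))ᶜ ∩ ⋂ j ∈ Finset.range k,
      Mo (Pr C (br C x n ++ [j])), ?_, ⟨⟨hxW, hk3⟩, ?_⟩, ?_⟩
    · exact (hW.inter isClosed_closure.isOpen_compl).inter
        (isOpen_biInter_finset fun j _ => isOpen_Mo _)
    · exact mem_iInter₂.2 fun j hj => hk2 j (Finset.mem_range.1 hj)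
    · rintro y ⟨⟨hyW, hyk⟩, hyj⟩ hy hy0
      have h1 := h y hyW hy hy0
      have hye := hex y hy hy0
      have h2 : Nat.find hye = k := by
        rw [Nat.find_eq_iff]
        rw [h1]
        refine ⟨fun hcon => hyk (subset_closure hcon), fun j hj => ?_⟩
        rw [not_not]
        exact mem_iInter₂.1 hyj j (Finset.mem_range.2 hj)
      rw [br, br, dif_pos hye, dif_pos hxe, h2, h1]

/-- **Uniformization up to a meagre set.** A closed subset `C` of `X × ℕ^ℕ` has a section which is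
continuous on the complement of a meagre set, in the projection of `C`. -/
theorem uniformize (C : Set (X × (ℕ → ℕ))) (hC : IsClosed C) :
    ∃ (M : Set X) (σ : X → ℕ → ℕ), IsMeagre M ∧ ∀ x, x ∉ M → (∃ τ, (x, τ) ∈ C) →
      (x, σ x) ∈ C ∧ ∀ n : ℕ, ∃ W : Set X, IsOpen W ∧ x ∈ W ∧ ∀ y ∈ W, y ∉ M →
        (∃ τ, (y, τ) ∈ C) → ∀ i < n, σ y i = σ x i := by
  have hP : ∀ x, (∃ τ, (x, τ) ∈ C) → x ∈ Pr C [] := by
    rintro x ⟨τ, h⟩
    exact ⟨τ, fun i hi => absurd hi (Nat.not_lt_zero i), h⟩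
  refine ⟨Exc C, sel C, meagre_Exc C, fun x hx hxC => ⟨sel_mem hC hx (hP x hxC), fun n => ?_⟩⟩
  obtain ⟨W, hW, hxW, h⟩ := br_cont hx (hP x hxC) n
  refine ⟨W, hW, hxW, fun y hy hyE hyC i hi => ?_⟩
  have h1 := h y hy hyE (hP y hyC)
  have e1 : i < (br C y n).length := by rw [br_len]; exact hi
  have e2 : i < (br C x n).length := by rw [br_len]; exact hi
  rw [← br_get C y n i e1, ← br_get C x n i e2]
  simp only [h1]

end Pool.Agent.V8H52.OS
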