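import Pool.Agent.V8H52.OS.Germ

/-!
# Sparse periodic pseudo-orbits are periodic orbits of nearby diffeomorphisms
-/

set_option autoImplicit false
set_option linter.unusedSectionVars false

open scoped Manifold ContDiff Topology
open Filter Set Metric

universe u

namespace Pool.Agent.V8H52.OS

open Pool.Agent.H718R2.G Pool.Agent.W564.SC Pool.Agent.R773.FC Pool.Agent.Y368.CL

section

variable {n : ℕ} {N : Type u} [MetricSpace N] [CompactSpace N]
  [ChartedSpace (V n) N] [IsManifold (𝓡 n) ∞ N]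

theorem realize {r : ℕ∞} (hr : 1 ≤ r) (hL : ChartLip n N) (G : DiffM n N r)
    (U : Set (DiffM n N r)) (hU : IsOpen[strongTop n N r] U) (hGU : G ∈ U) :
    ∃ k : ℕ, 1 ≤ k ∧ (k : ℕ∞) ≤ r ∧ ∃ κ : ℝ, 0 < κ ∧ ∀ (m : ℕ) (x : ℕ → N),
      SparseOrbit G k κ m x → ∃ G' ∈ U, ∀ i < m, G' (x i) = x (i + 1) := by
  classical
  obtain ⟨V', hV', hGV', hV'U, hgerm⟩ := germ_nbhd G U hU hGU
  rcases isEmpty_or_nonempty N with hN | hN
  · exact ⟨1, le_rfl, hr, 1, one_pos, fun m x => (hN.false (x 0)).elim⟩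
  -- the charts
  have hgc : ∀ z : N, ∃ χ : OpenPartialHomeomorph N (V n), GoodChart n N χ z :=
    fun z => Pool.Agent.W699.SC.gc n N z
  choose χ hχ using hgc
  have hLip : ∀ z : N, ∃ L : ℝ, 1 ≤ L ∧ ∀ y ∈ (χ z).source, ∀ y' ∈ (χ z).source,
      ‖χ z y‖ ≤ 1 / 2 → ‖χ z y'‖ ≤ 1 / 2 → dist y y' ≤ L * ‖χ z y - χ z y'‖ ∧
        ‖χ z y - χ z y'‖ ≤ L * dist y y' := by
    intro z
    obtain ⟨L, hL0, h⟩ := hL (χ z) z (hχ z)
    refine ⟨max L 1, le_max_right _ _, fun y hy y' hy' h1 h2 => ⟨?_, ?_⟩⟩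
    · exact (h y hy y' hy' h1 h2).1.trans
        (mul_le_mul_of_nonneg_right (le_max_left _ _) (norm_nonneg _))
    · exact (h y hy y' hy' h1 h2).2.trans
        (mul_le_mul_of_nonneg_right (le_max_left _ _) dist_nonneg)
  choose L hL1 hL2 using hLip
  have hMz : ∀ z : N, _ := fun z => t_NBHD n N r hr ℝ (fun _ => G) (isFam_const G) (χ z) z (hχ z)
    V' hV' hGV'
  choose k₀ hk1 hkr κ₀ hκ₀ hmul using hMz
  have hBz : ∀ z : N, _ := fun z => Pool.Agent.W271.SC.bump n (k₀ z) (hk1 z)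
  choose C hC hbump using hBz
  have huc : ∀ z : N, _ := fun z => unif_close (hχ z)
  choose η hη hclose using huc
  -- the cover
  let W : N → Set N := fun z => {y | y ∈ (χ z).source ∧ ‖χ z y‖ < 1 / 8}
  have hW : ∀ z, W z ∈ 𝓝 z := by
    intro z
    have h1 : ∀ᶠ y in 𝓝 z, y ∈ (χ z).source := (χ z).open_source.mem_nhds (hχ z).src
    have h2 : ∀ᶠ y in 𝓝 z, ‖χ z y‖ < 1 / 8 := by
      have hc : ContinuousAt (fun y => ‖χ z y‖) z := ((χ z).continuousAt (hχ z).src).norm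
      refine hc.eventually (gt_mem_nhds ?_)
      show ‖χ z z‖ < _
      rw [(hχ z).zero, norm_zero]
      norm_num
    exact h1.and h2
  obtain ⟨Z, hZ⟩ := CompactSpace.elim_nhds_subcover W hW
  have hcov : ∀ y : N, ∃ z ∈ Z, y ∈ W z := by
    intro y
    have : y ∈ ⋃ x ∈ Z, W x := by rw [hZ]; trivial
    simpa using this
  choose az haZ haW using hcov
  have hZne : Z.Nonempty := ⟨az hN.some, haZ _⟩
  obtain ⟨zk, hzk, hkmax⟩ := Finset.exists_max_image Z k₀ hZne
  have hL0 : ∀ z, 0 < L z := fun z => lt_of_lt_of_le one_pos (hL1 z)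
  -- the constant
  let c : N → ℝ := fun z => min (κ₀ z) (1 / 2)
  have hc0 : ∀ z, 0 < c z := fun z => lt_min (hκ₀ z) (by norm_num)
  let f : N → ℝ := fun z => min (min (1 / 2) (η z))
    (min (1 / (8 * L z ^ 2)) (c z / (C z * L z * (8 * L z) ^ k₀ z)))
  have hf0 : ∀ z, 0 < f z := by
    intro z
    have := hL0 z
    have := hC z
    have := hc0 z
    exact lt_min (lt_min (by norm_num) (hη z)) (lt_min (by positivity) (by positivity))
  obtain ⟨zf, hzf, hfmin⟩ := Finset.exists_min_image Z f hZne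
  refine ⟨k₀ zk, hk1 zk, hkr zk, f zf, hf0 zf, ?_⟩
  obtain ⟨κ, hκ⟩ : ∃ κ, κ = f zf := ⟨_, rfl⟩
  obtain ⟨k, hk⟩ : ∃ k, k = k₀ zk := ⟨_, rfl⟩
  have hkone : 1 ≤ k := by rw [hk]; exact hk1 zk
  rw [← hκ, ← hk]
  rw [← hk] at hkmax
  have hκ0 : 0 < κ := by rw [hκ]; exact hf0 zf
  have hκZ : ∀ z ∈ Z, κ ≤ f z := fun z hz => by rw [hκ]; exact hfmin z hz
  have hκ1 : κ ≤ 1 / 2 := (hκZ zf hzf).trans ((min_le_left _ _).trans (min_le_left _ _))
  have hκη : ∀ z ∈ Z, κ ≤ η z := fun z hz =>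
    (hκZ z hz).trans ((min_le_left _ _).trans (min_le_right _ _))
  have hκL : ∀ z ∈ Z, κ * (8 * L z ^ 2) ≤ 1 := fun z hz => by
    have h1 := (hκZ z hz).trans ((min_le_right _ _).trans (min_le_left _ _))
    have := hL0 z
    rwa [le_div_iff₀ (by positivity)] at h1
  have hκC : ∀ z ∈ Z, κ * (C z * L z * (8 * L z) ^ k₀ z) ≤ c z := fun z hz => by
    have h1 := (hκZ z hz).trans ((min_le_right _ _).trans (min_le_right _ _))
    have := hL0 z
    have := hC z
    rwa [le_div_iff₀ (by positivity)] at h1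
  have hκ8 : κ ≤ 1 / 8 := by
    have h1 := hκL zf hzf
    have h2 := hL1 zf
    nlinarith [sq_nonneg (L zf - 1)]
  intro m x hx
  -- the jumps
  have hρ : ∀ i, ∃ ρ : ℝ, i < m → G (x i) ≠ x (i + 1) → 0 < ρ ∧ ρ < κ ∧
      dist (G (x i)) (x (i + 1)) ≤ κ * ρ ^ k ∧
      ∀ j, 1 ≤ j → j ≤ m → j ≠ i + 1 → ρ ≤ dist (x j) (x (i + 1)) := by
    intro i
    by_cases him : i < m
    · rcases hx.jump i him with h | ⟨ρ, h⟩
      · exact ⟨0, fun _ h' => absurd h h'⟩
      · exact ⟨ρ, fun _ _ => h⟩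
    · exact ⟨0, fun h => absurd h him⟩
  choose ρ hρ using hρ
  obtain ⟨J, hJ⟩ : ∃ J : Finset ℕ, J = (Finset.range m).filter (fun i => G (x i) ≠ x (i + 1)) :=
    ⟨_, rfl⟩
  have hJm : ∀ i ∈ J, i < m ∧ G (x i) ≠ x (i + 1) := by
    intro i hi
    rw [hJ, Finset.mem_filter, Finset.mem_range] at hi
    exact hi
  have hJ1 : ∀ i ∈ J, 0 < ρ i ∧ ρ i < κ ∧ dist (G (x i)) (x (i + 1)) ≤ κ * ρ i ^ k ∧
      ∀ j, 1 ≤ j → j ≤ m → j ≠ i + 1 → ρ i ≤ dist (x j) (x (i + 1)) :=
    fun i hi => hρ i (hJm i hi).1 (hJm i hi).2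
  have hρ1 : ∀ i ∈ J, ρ i ≤ 1 := fun i hi => by
    have := (hJ1 i hi).2.1
    linarith
  have hρk : ∀ i ∈ J, ρ i ^ k ≤ ρ i := fun i hi => by
    calc ρ i ^ k ≤ ρ i ^ 1 := pow_le_pow_of_le_one (hJ1 i hi).1.le (hρ1 i hi) hkone
      _ = ρ i := pow_one _
  have hd4 : ∀ i ∈ J, dist (G (x i)) (x (i + 1)) ≤ κ * ρ i := fun i hi =>
    (hJ1 i hi).2.2.1.trans (mul_le_mul_of_nonneg_left (hρk i hi) hκ0.le)
  have hsep : ∀ i ∈ J, ∀ j ∈ J, i ≠ j → ρ i ≤ dist (x (i + 1)) (x (j + 1)) ∧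
      ρ j ≤ dist (x (i + 1)) (x (j + 1)) := by
    intro i hi j hj hij
    have h1 := (hJ1 i hi).2.2.2 (j + 1) (by omega) (by have := (hJm j hj).1; omega) (by omega)
    have h2 := (hJ1 j hj).2.2.2 (i + 1) (by omega) (by have := (hJm i hi).1; omega) (by omega)
    rw [dist_comm] at h1
    exact ⟨h1, h2⟩
  -- the displacements
  obtain ⟨w, hw⟩ : ∃ w : ℕ → V n, ∀ i, w i = χ (az (x (i + 1))) (G (x i)) -
    χ (az (x (i + 1))) (x (i + 1)) := ⟨_, fun _ => rfl⟩
  have hin : ∀ i ∈ J, G (x i) ∈ (χ (az (x (i + 1)))).source ∧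
      ‖χ (az (x (i + 1))) (G (x i))‖ < 1 / 2 := by
    intro i hi
    obtain ⟨h1, h2⟩ := haW (x (i + 1))
    refine hclose _ _ h1 (by linarith) _ ?_
    rw [dist_comm]
    have h3 := hκη _ (haZ (x (i + 1)))
    have h4 := hd4 i hi
    have h5 := (hJ1 i hi).2.1
    have h6 := (hJ1 i hi).1
    nlinarith
  have hwn : ∀ i ∈ J, ‖w i‖ ≤ L (az (x (i + 1))) * (κ * ρ i ^ k) := by
    intro i hi
    obtain ⟨h1, h2⟩ := haW (x (i + 1))
    obtain ⟨h3, h4⟩ := hin i hi
    rw [hw]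
    refine ((hL2 _ _ h3 _ h1 h4.le (by linarith)).2).trans ?_
    exact mul_le_mul_of_nonneg_left (hJ1 i hi).2.2.1 (hL0 _).le
  have hwn2 : ∀ i ∈ J, ‖w i‖ ≤ ρ i / (8 * L (az (x (i + 1)))) := by
    intro i hi
    refine (hwn i hi).trans ?_
    have h1 := hκL _ (haZ (x (i + 1)))
    have h2 := hL0 (az (x (i + 1)))
    rw [le_div_iff₀ (by positivity)]
    have h3 := hρk i hi
    have h4 := (hJ1 i hi).1
    have h5 : 0 ≤ ρ i ^ k := by positivity
    calc L (az (x (i + 1))) * (κ * ρ i ^ k) * (8 * L (az (x (i + 1)))) =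
        κ * (8 * L (az (x (i + 1))) ^ 2) * ρ i ^ k := by ring
      _ ≤ 1 * ρ i ^ k := mul_le_mul_of_nonneg_right h1 h5
      _ ≤ ρ i := by linarith
  -- the bumps
  have hb : ∀ i, ∃ b : V n → V n, i ∈ J → Small n (k₀ (az (x (i + 1)))) (c (az (x (i + 1)))) b ∧
      b (w i) = -w i ∧ ∀ v, ρ i / (4 * L (az (x (i + 1)))) ≤ ‖v‖ → b v = 0 := by
    intro i
    by_cases hi : i ∈ J
    · obtain ⟨z, hz⟩ : ∃ z, z = az (x (i + 1)) := ⟨_, rfl⟩
      have hzZ : z ∈ Z := by rw [hz]; exact haZ _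
      have h1 := hwn i hi
      have h2 := hwn2 i hi
      rw [← hz] at h1 h2 ⊢
      have h3 := hL0 z
      have h3' := hL1 z
      obtain ⟨h4, h5, -, -⟩ := hJ1 i hi
      have h6 : ρ i / (8 * L z) ≤ 1 / 4 := by
        rw [div_le_iff₀ (by positivity)]
        nlinarith
      obtain ⟨b, b1, b2, b3⟩ := hbump z (ρ i / (8 * L z)) (by positivity) h6 (w i) h2
      refine ⟨b, fun _ => ⟨small_mono b1 le_rfl ?_, b2, fun v hv => b3 v ?_⟩⟩
      · have h7 : ρ i ^ k ≤ ρ i ^ k₀ z :=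
          pow_le_pow_of_le_one h4.le (hρ1 i hi) (hkmax z hzZ)
        have h8 : 0 < (ρ i / (8 * L z)) ^ k₀ z := by positivity
        have h9 : ρ i ^ k₀ z = (8 * L z) ^ k₀ z * (ρ i / (8 * L z)) ^ k₀ z := by
          rw [← mul_pow]
          congr 1
          field_simp
        have h10 : ‖w i‖ / (ρ i / (8 * L z)) ^ k₀ z ≤ L z * κ * (8 * L z) ^ k₀ z := by
          rw [div_le_iff₀ h8]
          calc ‖w i‖ ≤ L z * (κ * ρ i ^ k) := h1
            _ ≤ L z * (κ * ρ i ^ k₀ z) := by gcongr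
            _ = L z * κ * (8 * L z) ^ k₀ z * (ρ i / (8 * L z)) ^ k₀ z := by rw [h9]; ring
        calc C z * (‖w i‖ / (ρ i / (8 * L z)) ^ k₀ z) ≤ C z * (L z * κ * (8 * L z) ^ k₀ z) :=
              mul_le_mul_of_nonneg_left h10 (hC z).le
          _ = κ * (C z * L z * (8 * L z) ^ k₀ z) := by ring
          _ ≤ c z := hκC z hzZ
      · have h7 : 2 * (ρ i / (8 * L z)) = ρ i / (4 * L z) := by
          field_simp
          ring
        rw [h7]
        exact hv
    · exact ⟨0, fun h => absurd h hi⟩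
  choose b hb using hb
  -- the fields
  obtain ⟨Jz, hJz⟩ : ∃ Jz : N → Finset ℕ, ∀ z, Jz z = J.filter (fun i => az (x (i + 1)) = z) :=
    ⟨_, fun _ => rfl⟩
  have hJzm : ∀ z, ∀ i ∈ Jz z, i ∈ J ∧ az (x (i + 1)) = z := by
    intro z i hi
    rw [hJz, Finset.mem_filter] at hi
    exact hi
  obtain ⟨u, hu⟩ : ∃ u : N → V n → V n, ∀ z, u z = fun v => ∑ i ∈ Jz z, b i (v - χ z (x (i + 1))) :=
    ⟨_, fun _ => rfl⟩
  -- separation in the charts
  have hsepc : ∀ z, ∀ i ∈ Jz z, ∀ j ∈ Jz z, i ≠ j →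
      (ρ i + ρ j) / (2 * L z) ≤ ‖χ z (x (i + 1)) - χ z (x (j + 1))‖ := by
    intro z i hi j hj hij
    obtain ⟨hi1, hi2⟩ := hJzm z i hi
    obtain ⟨hj1, hj2⟩ := hJzm z j hj
    have a1 := haW (x (i + 1))
    have a2 := haW (x (j + 1))
    rw [hi2] at a1
    rw [hj2] at a2
    have h1 := (hL2 z _ a1.1 _ a2.1 (by linarith [a1.2]) (by linarith [a2.2])).1
    obtain ⟨h2, h3⟩ := hsep i hi1 j hj1 hij
    have h4 := hL0 z
    rw [div_le_iff₀ (by positivity)]
    linarith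
  have hsm : ∀ z ∈ Z, Small n (k₀ z) (c z) (u z) := by
    intro z hz
    rw [hu z]
    have hLz := hL0 z
    refine small_sum (hc0 z).le (Jz z) (fun i v => b i (v - χ z (x (i + 1))))
      (fun i => χ z (x (i + 1))) (fun i => ρ i / (4 * L z)) ?_ ?_ ?_ ?_ ?_
    · intro i hi
      exact (hb i (hJzm z i hi).1).1.smooth.comp (contDiff_id.sub contDiff_const)
    · intro i hi j hj v
      obtain ⟨hi1, hi2⟩ := hJzm z i hi
      have h1 : iteratedFDeriv ℝ j (fun v => b i (v - χ z (x (i + 1)))) v =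
          iteratedFDeriv ℝ j (b i) (v - χ z (x (i + 1))) := by
        rw [iteratedFDeriv_comp_sub]
      rw [h1]
      have h2 := (hb i hi1).1
      rw [hi2] at h2
      exact h2.bd j hj _
    · intro i hi v hv
      obtain ⟨hi1, hi2⟩ := hJzm z i hi
      have h2 := (hb i hi1).2.2
      rw [hi2] at h2
      exact h2 _ hv
    · intro i hi j hj hij
      have h1 := hsepc z i hi j hj hij
      have h2 := (hJ1 i (hJzm z i hi).1).1
      have h3 := (hJ1 j (hJzm z j hj).1).1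
      refine lt_of_lt_of_le ?_ h1
      rw [← add_div]
      exact div_lt_div_of_pos_left (by linarith) (by positivity) (by linarith)
    · intro i hi
      obtain ⟨hi1, hi2⟩ := hJzm z i hi
      have a1 := (haW (x (i + 1))).2
      rw [hi2] at a1
      have h2 := (hJ1 i hi1).2.1
      have h3 : ρ i / (4 * L z) ≤ 1 / 8 := by
        rw [div_le_iff₀ (by positivity)]
        have := hL1 z
        nlinarith
      show ‖χ z (x (i + 1))‖ + ρ i / (4 * L z) ≤ 1 / 2
      linarith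
  have hΘ : ∀ z, ∃ Θ : DiffM n N r, z ∈ Z → IsPush n N r (χ z) (u z) Θ := by
    intro z
    by_cases hz : z ∈ Z
    · obtain ⟨Θ, h⟩ := Pool.Agent.W428.SC.push n N r (χ z) z (hχ z) (u z)
        (small_mono (hsm z hz) (hk1 z) (min_le_right _ _))
      exact ⟨Θ, fun _ => h⟩
    · exact ⟨G, fun h => absurd h hz⟩
  choose Θ hΘ using hΘ
  obtain ⟨S, hS⟩ : ∃ S : N → Set N, ∀ z, S z = ⋃ i ∈ Jz z, closedBall (x (i + 1)) (ρ i / 4) :=
    ⟨_, fun _ => rfl⟩
  have hSmem : ∀ z y, y ∈ S z → ∃ i ∈ Jz z, dist y (x (i + 1)) ≤ ρ i / 4 := by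
    intro z y hy
    rw [hS z] at hy
    obtain ⟨i, hi, h⟩ := mem_iUnion₂.1 hy
    exact ⟨i, hi, mem_closedBall.1 h⟩
  have hSmem' : ∀ z y, ∀ i ∈ Jz z, dist y (x (i + 1)) ≤ ρ i / 4 → y ∈ S z := by
    intro z y i hi h
    rw [hS z]
    exact mem_iUnion₂.2 ⟨i, hi, mem_closedBall.2 h⟩
  obtain ⟨Θ', hΘ1, hΘ2⟩ := glue Z Θ S
    (fun z _ => by
      rw [hS z]
      exact Set.Finite.isClosed_biUnion (Finset.finite_toSet _) fun i _ => isClosed_closedBall)
    (by
      intro z hz z' hz' hne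
      rw [Set.disjoint_left]
      intro y hy hy'
      obtain ⟨i, hi, h1⟩ := hSmem z y hy
      obtain ⟨j, hj, h2⟩ := hSmem z' y hy'
      obtain ⟨hi1, hi2⟩ := hJzm z i hi
      obtain ⟨hj1, hj2⟩ := hJzm z' j hj
      have hij : i ≠ j := by
        rintro rfl
        exact hne (hi2.symm.trans hj2)
      obtain ⟨h3, h4⟩ := hsep i hi1 j hj1 hij
      have h5 := dist_triangle_left (x (i + 1)) (x (j + 1)) y
      have h6 := (hJ1 i hi1).1
      have h7 := (hJ1 j hj1).1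
      linarith)
    (by
      intro z hz y hy
      obtain ⟨p1, p2⟩ := hΘ z hz
      by_cases hys : y ∈ (χ z).source
      · obtain ⟨q1, q2⟩ := p1 y hys
        have h0 : u z (χ z y) = 0 := by
          rw [hu z]
          refine Finset.sum_eq_zero fun i hi => ?_
          obtain ⟨hi1, hi2⟩ := hJzm z i hi
          have h2 := (hb i hi1).2.2
          rw [hi2] at h2
          refine h2 _ ?_
          by_contra hcon
          push Not at hcon
          apply hy
          refine hSmem' z y i hi ?_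
          have a1 := haW (x (i + 1))
          rw [hi2] at a1
          have hLz := hL0 z
          have h3 : ρ i / (4 * L z) ≤ 1 / 8 := by
            rw [div_le_iff₀ (by positivity)]
            have := hL1 z
            have := (hJ1 i hi1).2.1
            nlinarith
          have h4 : ‖χ z y‖ ≤ 1 / 2 := by
            have h5 := norm_sub_norm_le (χ z y) (χ z (x (i + 1)))
            have h6 := a1.2
            linarith
          have h7 := (hL2 z y hys _ a1.1 h4 (by linarith [a1.2])).1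
          have h8 : L z * (ρ i / (4 * L z)) = ρ i / 4 := by
            field_simp
          have h9 := mul_le_mul_of_nonneg_left hcon.le hLz.le
          linarith
        rw [h0, add_zero] at q2
        exact (χ z).injOn q1 hys q2
      · exact p2 y hys)
  refine ⟨G.trans Θ', hV'U (hgerm _ fun y => ?_), fun i hi => ?_⟩
  · by_cases hex : ∃ z ∈ Z, G y ∈ S z
    · obtain ⟨z, hz, hyS⟩ := hex
      refine ⟨G.trans (Θ z), hmul z 0 (u z) (Θ z) (by rw [norm_zero]; exact hκ₀ z)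
        (small_mono (hsm z hz) le_rfl (min_le_left _ _)) (hΘ z hz), ?_⟩
      have h1 := G.continuous.continuousAt.eventually (hΘ1 z hz (G y) hyS)
      filter_upwards [h1] with y' hy'
      exact hy'
    · push Not at hex
      refine ⟨G, hGV', ?_⟩
      have h1 := G.continuous.continuousAt.eventually (hΘ2 (G y) hex)
      filter_upwards [h1] with y' hy'
      exact hy'
  · show Θ' (G (x i)) = x (i + 1)
    by_cases hGi : G (x i) = x (i + 1)
    · rw [hGi]
      refine (hΘ2 (x (i + 1)) fun z hz hyS => ?_).eq_of_nhds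
      obtain ⟨j, hj, h1⟩ := hSmem z _ hyS
      obtain ⟨hj1, -⟩ := hJzm z j hj
      have hij : i ≠ j := by
        rintro rfl
        exact (hJm i hj1).2 hGi
      have h2 := (hJ1 j hj1).2.2.2 (i + 1) (by omega) (by omega) (by omega)
      have h3 := (hJ1 j hj1).1
      linarith
    · have hiJ : i ∈ J := by
        rw [hJ, Finset.mem_filter, Finset.mem_range]
        exact ⟨hi, hGi⟩
      obtain ⟨z, hz⟩ : ∃ z, z = az (x (i + 1)) := ⟨_, rfl⟩
      have hzZ : z ∈ Z := by rw [hz]; exact haZ _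
      have hiz : i ∈ Jz z := by
        rw [hJz, Finset.mem_filter]
        exact ⟨hiJ, hz.symm⟩
      have hyS : G (x i) ∈ S z := by
        refine hSmem' z _ i hiz ?_
        have h1 := hd4 i hiJ
        have h2 := (hJ1 i hiJ).1
        nlinarith
      have h1 : Θ' (G (x i)) = Θ z (G (x i)) := (hΘ1 z hzZ _ hyS).eq_of_nhds
      rw [h1]
      have a1 := haW (x (i + 1))
      obtain ⟨h3, h4⟩ := hin i hiJ
      have h5 := hwn2 i hiJ
      have h6 := hw i
      have h7 := (hb i hiJ).2.1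
      rw [← hz] at a1 h3 h4 h5 h6
      obtain ⟨q1, q2⟩ := (hΘ z hzZ).1 _ h3
      apply (χ z).injOn q1 a1.1
      rw [q2, hu z]
      have hsum : (fun v => ∑ j ∈ Jz z, b j (v - χ z (x (j + 1)))) (χ z (G (x i))) = -w i := by
        show ∑ j ∈ Jz z, b j (χ z (G (x i)) - χ z (x (j + 1))) = -w i
        rw [Finset.sum_eq_single_of_mem i hiz, ← h6, h7]
        intro j hj hji
        obtain ⟨hj1, hj2⟩ := hJzm z j hj
        have e2 := (hb j hj1).2.2
        rw [hj2] at e2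
        refine e2 _ ?_
        have e3 := hsepc z i hiz j hj (Ne.symm hji)
        have e4 : ‖χ z (x (i + 1)) - χ z (x (j + 1))‖ ≤
            ‖χ z (G (x i)) - χ z (x (j + 1))‖ + ‖w i‖ := by
          have e5 : χ z (x (i + 1)) - χ z (x (j + 1)) =
              (χ z (G (x i)) - χ z (x (j + 1))) - w i := by rw [h6]; abel
          rw [e5]
          exact norm_sub_le _ _
        have hLz := hL0 z
        have e6 := (hJ1 i hiJ).1
        have e7 := (hJ1 j hj1).1
        have e8 : (ρ i + ρ j) / (2 * L z) = 4 * (ρ i / (8 * L z)) + 2 * (ρ j / (4 * L z)) := by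
          field_simp
          ring
        have e9 : 0 < ρ i / (8 * L z) := by positivity
        have e10 : 0 < ρ j / (4 * L z) := by positivity
        linarith
      rw [hsum, h6]
      abel

end

end Pool.Agent.V8H52.OS
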