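import Pool.Agent.V8H52.OS.Glob2
import Pool.Agent.V8H52.OS.Real

/-!
# Shadowing of sparse periodic pseudo-orbits
-/

set_option autoImplicit false
set_option linter.unusedSectionVars false

open scoped Manifold ContDiff Topology
open Filter Set Metric

universe u v

namespace Pool.Agent.V8H52.OS

open Pool.Agent.H718R2.G Pool.Agent.TH80.OMS Pool.Agent.Y504.CO Pool.Agent.Y368.CL

theorem per_iter {N : Type u} {G : N → N} {p : N} (hp : p ∈ Per G) (i : ℕ) : G^[i] p ∈ Per G := by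
  obtain ⟨m, hm, h⟩ := hp
  refine ⟨m, hm, ?_⟩
  rw [← Function.iterate_add_apply, add_comm, Function.iterate_add_apply, h]

theorem beta_iter {N : Type u} {G G' β : N → N} (h : ∀ x ∈ Per G, β (G x) = G' (β x)) {p : N}
    (hp : p ∈ Per G) (i : ℕ) : β (G^[i] p) = G'^[i] (β p) := by
  induction i with
  | zero => rfl
  | succ i ih =>
    rw [Function.iterate_succ_apply', Function.iterate_succ_apply', h _ (per_iter hp i), ih]

/-- a pseudo-orbit which is a periodic orbit of `G'` is shadowed by a periodic orbit of `G` -/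
theorem shadow_of_perNear {N : Type u} [MetricSpace N] {δ : ℝ} {G G' : N → N}
    (h : PerNear δ G G') {m : ℕ} (hm : 1 ≤ m) {x : ℕ → N} (hx : x m = x 0)
    (hG' : ∀ i < m, G' (x i) = x (i + 1)) :
    ∃ p : N, G^[m] p = p ∧ ∀ i ≤ m, dist (G^[i] p) (x i) ≤ δ := by
  have hit : ∀ i ≤ m, G'^[i] (x 0) = x i := by
    intro i
    induction i with
    | zero => intro _; rfl
    | succ i ih =>
      intro hi
      rw [Function.iterate_succ_apply', ih (by omega), hG' i (by omega)]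
  have hx0 : x 0 ∈ Per G' := ⟨m, hm, by rw [hit m le_rfl, hx]⟩
  obtain ⟨β, hβ, h1⟩ := h
  obtain ⟨p, hp, hp0⟩ := hβ.surjOn hx0
  have hbi := fun i => beta_iter (fun y hy => (h1 y hy).1) hp i
  refine ⟨p, ?_, fun i hi => ?_⟩
  · apply hβ.injOn (per_iter hp m) hp
    rw [hbi m, hp0, hit m le_rfl, hx]
  · have h2 := (h1 _ (per_iter hp i)).2
    rw [hbi i, hp0, hit i hi, dist_comm] at h2
    exact h2

section

variable {n : ℕ} {N : Type u} [MetricSpace N] [CompactSpace N]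
  [ChartedSpace (V n) N] [IsManifold (𝓡 n) ∞ N]

theorem shadows {r : ℕ∞} (hr : 1 ≤ r) (hL : ChartLip n N) {δ : ℝ} {W : Set (DiffM n N r)}
    (hW : IsOpen[strongTop n N r] W) (hper : ∀ G₁ ∈ W, ∀ G₂ ∈ W, PerNear δ G₁ G₂)
    {G : DiffM n N r} (hG : G ∈ W) :
    ∃ k : ℕ, 1 ≤ k ∧ (k : ℕ∞) ≤ r ∧ ∃ κ : ℝ, 0 < κ ∧ Shadows δ G k κ := by
  obtain ⟨k, hk1, hkr, κ, hκ, h⟩ := realize hr hL G W hW hG
  refine ⟨k, hk1, hkr, κ, hκ, fun m x hx => ?_⟩
  obtain ⟨G', hG', h1⟩ := h m x hx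
  exact shadow_of_perNear (hper G hG G' hG') hx.pos hx.per h1

theorem main_fam {r : ℕ∞} (hr : 1 ≤ r) {P : Type v} [TopologicalSpace P]
    {E : P → DiffM n N r} (hE : ContE E) :
    ∃ R ∈ residual P, ∀ s ∈ R, OmegaStable n N r (E s) → ∀ δ : ℝ, 0 < δ →
      ∃ W : Set P, IsOpen W ∧ s ∈ W ∧
        (∀ t ∈ W, t ∈ R → ∀ t' ∈ W, t' ∈ R → NearConj δ (E t) (E t')) ∧
        (∀ t ∈ W, t ∈ R → ∀ t' ∈ W, Follows δ (E t) (E t')) ∧
        ∀ t ∈ W, ∀ t' ∈ W, PerNear δ (E t) (E t') := by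
  obtain ⟨R, hR, h⟩ := global_good hr hE
  refine ⟨R, hR, fun s hs hst δ hδ => ?_⟩
  obtain ⟨W, h1, h2, -, h3, h4, h5⟩ := h s hs hst δ hδ
  exact ⟨W, h1, h2, h3, h4, h5⟩

theorem main_shadow {r : ℕ∞} (hr : 1 ≤ r) (hL : ChartLip n N) :
    ∃ R ∈ @residual _ (strongTop n N r), ∀ F ∈ R, OmegaStable n N r F → ∀ δ : ℝ, 0 < δ →
      ∃ W : Set (DiffM n N r), IsOpen[strongTop n N r] W ∧ F ∈ W ∧ ∀ G ∈ W,
        ∃ k : ℕ, 1 ≤ k ∧ (k : ℕ∞) ≤ r ∧ ∃ κ : ℝ, 0 < κ ∧ Shadows δ G k κ := by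
  letI := strongTop n N r
  obtain ⟨R, hR, h⟩ := main_fam (E := fun G : DiffM n N r => G) hr (fun U hU => hU)
  refine ⟨R, hR, fun F hF hst δ hδ => ?_⟩
  obtain ⟨W, h1, h2, -, -, h3⟩ := h F hF hst δ hδ
  exact ⟨W, h1, h2, fun G hG => shadows hr hL h1 h3 hG⟩

end

end Pool.Agent.V8H52.OS
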