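import Pool.Agent.V8H52.OS.Per

/-!
# Limits of conjugacies
-/

set_option autoImplicit false
set_option linter.unusedSectionVars false

open scoped Manifold ContDiff Topology
open Filter Set Metric

universe u v

namespace Pool.Agent.V8H52.OS

open Pool.Agent.H718R2.G Pool.Agent.TH80.OMS Pool.Agent.Y504.CO

/-- the restriction to the nonwandering set -/
def res {N : Type u} [TopologicalSpace N] {F : N → N} (hF : Continuous F) (x : Omega F) : Omega F :=
  ⟨F x, omega_maps hF x.2⟩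

theorem res_iter {N : Type u} [TopologicalSpace N] {F : N → N} (hF : Continuous F) (m : ℕ)
    (x : Omega F) : (((res hF)^[m] x : Omega F) : N) = F^[m] x := by
  induction m with
  | zero => rfl
  | succ m ih =>
    rw [Function.iterate_succ_apply', Function.iterate_succ_apply', ← ih]
    rfl

theorem eqv_iter {K N : Type*} {f : K → K} {g : N → N} {γ : K → N} (h : ∀ x, γ (f x) = g (γ x))
    (m : ℕ) (x : K) : γ (f^[m] x) = g^[m] (γ x) := by
  induction m with
  | zero => rfl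
  | succ m ih => rw [Function.iterate_succ_apply', Function.iterate_succ_apply', h, ih]

section

variable {n : ℕ} {N : Type u} [MetricSpace N] [CompactSpace N]
  [ChartedSpace (V n) N] [IsManifold (𝓡 n) ∞ N]

/-- `E` is continuous, for the strong topology -/
def ContE {n : ℕ} {N : Type u} [TopologicalSpace N] [ChartedSpace (V n) N] {r : ℕ∞} {P : Type v}
    [TopologicalSpace P] (E : P → DiffM n N r) : Prop :=
  ∀ U : Set (DiffM n N r), IsOpen[strongTop n N r] U → IsOpen (E ⁻¹' U)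

theorem joint_cont_fam {r : ℕ∞} (hr : 1 ≤ r) {P : Type v} [TopologicalSpace P]
    {E : P → DiffM n N r} (hE : ContE E) : Continuous fun p : P × N => E p.1 p.2 := by
  letI := strongTop n N r
  have h1 : Continuous E := ⟨fun U hU => hE U hU⟩
  exact (joint_cont n N hr).comp ((h1.comp continuous_fst).prodMk continuous_snd)

theorem exists_gamma {r : ℕ∞} (hr : 1 ≤ r) {P : Type v} [TopologicalSpace P]
    {E : P → DiffM n N r} (hE : ContE E) {F : DiffM n N r} {U M : Set P}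
    (hconj : ∀ G ∈ U, OmegaConj F (E G)) (hstab : ∀ G ∈ U, OmegaStable n N r (E G))
    (h : P → C(Omega F, N))
    (hh : ∀ G ∈ U, G ∉ M → Function.Injective (h G) ∧ range (h G) = Omega (E G) ∧
      ∀ x : Omega F, h G (res F.continuous x) = E G (h G x))
    {W : Set P} (hWo : IsOpen W) (hWU : W ⊆ U)
    (hW : ∀ O : Set P, IsOpen O → O ⊆ W → O.Nonempty → ∃ G ∈ O, G ∉ M) (g0 : Omega F → N) {δ : ℝ}
    (hδ : ∀ G ∈ W, G ∉ M → ∀ x, dist (h G x) (g0 x) ≤ δ) {G' : P} (hG' : G' ∈ W) :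
    ∃ γ : Omega F → N, (∀ x, γ (res F.continuous x) = E G' (γ x)) ∧
      (∀ x, dist (γ x) (g0 x) ≤ δ) ∧ BijOn γ {x | (x : N) ∈ Per F} (Per (E G')) := by
  have hcl : G' ∈ closure (W \ M) := by
    rw [_root_.mem_closure_iff]
    intro O hO hGO
    obtain ⟨G, ⟨h1, h2⟩, h3⟩ := hW (O ∩ W) (hO.inter hWo) inter_subset_right ⟨G', hGO, hG'⟩
    exact ⟨G, h1, h2, h3⟩
  have hne : NeBot (𝓝[W \ M] G') := mem_closure_iff_nhdsWithin_neBot.1 hcl
  obtain ⟨𝒰, h𝒰⟩ := Ultrafilter.exists_le (𝓝[W \ M] G')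
  have hWM : ∀ᶠ G in (𝒰 : Filter P), G ∈ W \ M := h𝒰 self_mem_nhdsWithin
  have h𝒰' : (𝒰 : Filter P) ≤ 𝓝 G' := h𝒰.trans nhdsWithin_le_nhds
  have hlim : ∀ x : Omega F, ∃ y : N, Tendsto (fun G => h G x) 𝒰 (𝓝 y) := by
    intro x
    obtain ⟨y, -, hy⟩ := (isCompact_univ (X := N)).ultrafilter_le_nhds
      (𝒰.map (fun G => h G x)) (by rw [principal_univ]; exact le_top)
    exact ⟨y, hy⟩
  choose γ hγ using hlim
  have heqv : ∀ x, γ (res F.continuous x) = E G' (γ x) := by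
    intro x
    have h1 : Tendsto (fun G : P => (G, h G x)) 𝒰 (𝓝 (G', γ x)) := by
      rw [nhds_prod_eq]
      exact Tendsto.prodMk (tendsto_id'.2 h𝒰') (hγ x)
    have h2 : Tendsto (fun G : P => E G (h G x)) 𝒰 (𝓝 (E G' (γ x))) :=
      ((joint_cont_fam hr hE).tendsto (G', γ x)).comp h1
    refine tendsto_nhds_unique_of_eventuallyEq (hγ (res F.continuous x)) h2 ?_
    filter_upwards [hWM] with G hG
    exact (hh G (hWU hG.1) hG.2).2.2 x
  have hmem : ∀ x : Omega F, (x : N) ∈ Per F → ∀ m : ℕ, F^[m] x = x →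
      (E G')^[m] (γ x) = γ x := by
    intro x _ m hm
    rw [← eqv_iter heqv m x]
    congr 1
    exact Subtype.ext ((res_iter F.continuous m x).trans hm)
  have hinj : ∀ (x₁ x₂ : Omega F) (m : ℕ), 1 ≤ m → F^[m] x₁ = x₁ → F^[m] x₂ = x₂ →
      γ x₁ = γ x₂ → x₁ = x₂ := by
    intro x₁ x₂ m hm h1 h2 h12
    have hp : (E G')^[m] (γ x₁) = γ x₁ := hmem x₁ ⟨m, hm, h1⟩ m h1
    have hyp : HypAt n (E G') (γ x₁) :=
      (Final.isolated_main hr (hstab G' (hWU hG'))).1 _ ⟨m, hm, hp⟩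
    obtain ⟨A, hA, O, hO, hGO, huniq⟩ := loc_unique hr (E G') hm hp hyp
    have hO' : ∀ᶠ G in (𝒰 : Filter P), E G ∈ O := h𝒰' ((hE O hO).mem_nhds hGO)
    have hA1 : ∀ᶠ G in (𝒰 : Filter P), h G x₁ ∈ A := hγ x₁ hA
    have hA2 : ∀ᶠ G in (𝒰 : Filter P), h G x₂ ∈ A := by
      have := hγ x₂
      rw [← h12] at this
      exact this hA
    obtain ⟨G, ⟨hG1, hG2⟩, hG3, hG4⟩ := ((hWM.and hO').and (hA1.and hA2)).exists
    obtain ⟨e1, -, e3⟩ := hh G (hWU hG1.1) hG1.2
    have hfix : ∀ x : Omega F, F^[m] x = x → (E G)^[m] (h G x) = h G x := by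
      intro x hx
      rw [← eqv_iter e3 m x]
      congr 1
      exact Subtype.ext ((res_iter F.continuous m x).trans hx)
    exact e1 (huniq (E G) hG2 _ hG3 _ hG4 (hfix x₁ h1) (hfix x₂ h2))
  refine ⟨γ, heqv, fun x => ?_, fun x hx => ?_, fun x₁ hx₁ x₂ hx₂ h12 => ?_, fun p hp => ?_⟩
  · have h1 : Tendsto (fun G : P => dist (h G x) (g0 x)) 𝒰 (𝓝 (dist (γ x) (g0 x))) :=
      (hγ x).dist tendsto_const_nhds
    refine le_of_tendsto h1 ?_
    filter_upwards [hWM] with G hG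
    exact hδ G hG.1 hG.2 x
  · obtain ⟨m, hm, hx'⟩ := hx
    exact ⟨m, hm, hmem x ⟨m, hm, hx'⟩ m hx'⟩
  · obtain ⟨m₁, hm₁, h1⟩ := hx₁
    obtain ⟨m₂, hm₂, h2⟩ := hx₂
    refine hinj x₁ x₂ (m₁ * m₂) (Nat.mul_pos hm₁ hm₂) ?_ ?_ h12
    · exact (Function.IsPeriodicPt.mul_const (f := F) h1 m₂)
    · exact (Function.IsPeriodicPt.const_mul (f := F) h2 m₁)
  · obtain ⟨m, hm, hp'⟩ := hp
    -- counting
    obtain ⟨U', hU', hFU', hfin⟩ := finite_per hr (hstab G' (hWU hG'))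
    have hfin' : {x | (E G')^[m] x = x}.Finite := hfin (E G') hFU' m hm
    have hcard : {x | F^[m] x = x}.ncard = {x | (E G')^[m] x = x}.ncard :=
      ncard_conj F.continuous (E G').continuous (hconj G' (hWU hG')) hm
    set S : Set (Omega F) := {x | F^[m] x = x} with hS
    have hSimg : (fun x : Omega F => (x : N)) '' S = {x | F^[m] x = x} := by
      ext y
      constructor
      · rintro ⟨x, hx, rfl⟩
        exact hx
      · intro hy
        exact ⟨⟨y, per_mem_omega hm hy⟩, hy, rfl⟩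
    have hSc : S.ncard = {x | F^[m] x = x}.ncard := by
      rw [← hSimg, Set.ncard_image_of_injective _ Subtype.val_injective]
    have hsub : γ '' S ⊆ {x | (E G')^[m] x = x} := by
      rintro _ ⟨x, hx, rfl⟩
      exact hmem x ⟨m, hm, hx⟩ m hx
    have hic : (γ '' S).ncard = S.ncard :=
      Set.InjOn.ncard_image fun x hx y hy hxy => hinj x y m hm hx hy hxy
    have heq : γ '' S = {x | (E G')^[m] x = x} :=
      Set.eq_of_subset_of_ncard_le hsub (by rw [hic, hSc, hcard]) hfin'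
    have hp2 : p ∈ γ '' S := by rw [heq]; exact hp'
    obtain ⟨x, hx, hxp⟩ := hp2
    exact ⟨x, ⟨m, hm, hx⟩, hxp⟩

end

end Pool.Agent.V8H52.OS
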