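import Pool.Agent.R773.FC.Loc
import Pool.Agent.V8H52.OS.Defs

/-!
# Neighbourhoods in the strong topology are determined by germs; diffeomorphisms glued from
diffeomorphisms with disjoint supports
-/

set_option autoImplicit false
set_option linter.unusedSectionVars false

open scoped Manifold ContDiff Topology
open Filter Set Metric

universe u

namespace Pool.Agent.V8H52.OS

open Pool.Agent.H718R2.G Pool.Agent.W564.SC Pool.Agent.R773.FC

section

variable {n : ℕ} {N : Type u} [TopologicalSpace N] [ChartedSpace (V n) N]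

/-- basic neighbourhoods only depend on germs -/
theorem germ_basic {r : ℕ∞} (D : StrongData n N) (k : ℕ) (f₀ f : DiffM n N r)
    (h : ∀ x : N, ∃ g ∈ strongNbhd D k f₀, (f : N → N) =ᶠ[𝓝 x] g) : f ∈ strongNbhd D k f₀ := by
  intro i x hx
  obtain ⟨g, hg, hfg⟩ := h x
  obtain ⟨h1, h2⟩ := hg i x hx
  have hxφ : x ∈ (D.φ i).source := D.sub i hx
  refine ⟨by rw [hfg.eq_of_nhds]; exact h1, fun m hm => ?_⟩
  have hc : Tendsto (D.φ i).symm (𝓝 (D.φ i x)) (𝓝 x) := by
    have := (D.φ i).continuousAt_symm ((D.φ i).map_source hxφ)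
    rwa [ContinuousAt, (D.φ i).left_inv hxφ] at this
  have he : (D.ψ i ∘ f ∘ (D.φ i).symm) =ᶠ[𝓝 (D.φ i x)] (D.ψ i ∘ g ∘ (D.φ i).symm) := by
    filter_upwards [hc.eventually hfg] with v hv
    show D.ψ i (f ((D.φ i).symm v)) = D.ψ i (g ((D.φ i).symm v))
    rw [hv]
  rw [(EventuallyEq.iteratedFDeriv ℝ he m).eq_of_nhds]
  exact h2 m hm

theorem germ_nbhd {r : ℕ∞} (F : DiffM n N r) (U : Set (DiffM n N r))
    (hU : IsOpen[strongTop n N r] U) (hF : F ∈ U) :
    ∃ V' : Set (DiffM n N r), IsOpen[strongTop n N r] V' ∧ F ∈ V' ∧ V' ⊆ U ∧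
      ∀ f : DiffM n N r, (∀ x : N, ∃ g ∈ V', (f : N → N) =ᶠ[𝓝 x] g) → f ∈ V' := by
  have hU' : TopologicalSpace.GenerateOpen {S | ∃ (D : StrongData n N) (k : ℕ) (f : DiffM n N r),
    (k : ℕ∞) ≤ r ∧ (∀ i, ∀ x ∈ D.K i, f x ∈ (D.ψ i).source) ∧ S = strongNbhd D k f} U := hU
  clear hU
  induction hU' with
  | basic s hs =>
    obtain ⟨D, k, f₀, hk, hsrc, rfl⟩ := hs
    exact ⟨_, TopologicalSpace.GenerateOpen.basic _ ⟨D, k, f₀, hk, hsrc, rfl⟩, hF, Subset.rfl,
      fun f hf => germ_basic D k f₀ f hf⟩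
  | univ =>
    exact ⟨univ, @isOpen_univ _ (strongTop n N r), trivial, Subset.rfl, fun _ _ => trivial⟩
  | inter s t _ _ hs ht =>
    obtain ⟨A, a1, a2, a3, a4⟩ := hs hF.1
    obtain ⟨B, b1, b2, b3, b4⟩ := ht hF.2
    refine ⟨A ∩ B, @IsOpen.inter _ (strongTop n N r) _ _ a1 b1, ⟨a2, b2⟩,
      inter_subset_inter a3 b3, fun f hf => ⟨a4 f fun x => ?_, b4 f fun x => ?_⟩⟩
    · obtain ⟨g, hg, h⟩ := hf x
      exact ⟨g, hg.1, h⟩
    · obtain ⟨g, hg, h⟩ := hf x
      exact ⟨g, hg.2, h⟩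
  | sUnion S _ ih =>
    obtain ⟨s, hs, hFs⟩ := hF
    obtain ⟨A, a1, a2, a3, a4⟩ := ih s hs hFs
    exact ⟨A, a1, a2, a3.trans (subset_sUnion_of_mem hs), a4⟩

/-- gluing -/
theorem glue {r : ℕ∞} {ι : Type*} (Z : Finset ι) (Θ : ι → DiffM n N r) (S : ι → Set N)
    (hS : ∀ z ∈ Z, IsClosed (S z)) (hd : ∀ z ∈ Z, ∀ z' ∈ Z, z ≠ z' → Disjoint (S z) (S z'))
    (hid : ∀ z ∈ Z, ∀ y, y ∉ S z → Θ z y = y) :
    ∃ Θ' : DiffM n N r, (∀ z ∈ Z, ∀ y ∈ S z, (Θ' : N → N) =ᶠ[𝓝 y] Θ z) ∧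
      ∀ y, (∀ z ∈ Z, y ∉ S z) → (Θ' : N → N) =ᶠ[𝓝 y] id := by
  classical
  induction Z using Finset.induction_on with
  | empty =>
    refine ⟨Diffeomorph.refl (𝓡 n) N r, fun z hz => absurd hz (Finset.notMem_empty z), fun y _ => ?_⟩
    exact Eventually.of_forall fun y => rfl
  | insert a Z ha ih =>
    obtain ⟨Θ', h1, h2⟩ := ih (fun z hz => hS z (Finset.mem_insert_of_mem hz))
      (fun z hz z' hz' => hd z (Finset.mem_insert_of_mem hz) z' (Finset.mem_insert_of_mem hz'))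
      (fun z hz => hid z (Finset.mem_insert_of_mem hz))
    have haI : a ∈ insert a Z := Finset.mem_insert_self a Z
    have hdisj : ∀ z ∈ Z, Disjoint (S z) (S a) := fun z hz =>
      hd z (Finset.mem_insert_of_mem hz) a haI (fun h => ha (h ▸ hz))
    refine ⟨Θ'.trans (Θ a), fun z hz y hy => ?_, fun y hy => ?_⟩
    · rcases Finset.mem_insert.1 hz with rfl | hz
      · have h3 : ∀ z' ∈ Z, y ∉ S z' := fun z' hz' hyz' =>
          Set.disjoint_left.1 (hdisj z' hz') hyz' hy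
        filter_upwards [h2 y h3] with y' hy'
        show Θ z (Θ' y') = Θ z y'
        rw [hy']
        rfl
      · have h3 := h1 z hz y hy
        have h4 : Θ' y ∉ S a := by
          rw [h3.eq_of_nhds]
          intro hq
          have hq' : Θ z y ∉ S z := fun h => Set.disjoint_left.1 (hdisj z hz) h hq
          have e1 := hid z (Finset.mem_insert_of_mem hz) _ hq'
          have e2 : Θ z y = y := (Θ z).injective e1
          rw [e2] at hq
          exact Set.disjoint_left.1 (hdisj z hz) hy hq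
        have h5 : ∀ᶠ y' in 𝓝 y, Θ' y' ∉ S a :=
          Θ'.continuous.continuousAt.eventually ((hS a haI).isOpen_compl.mem_nhds h4)
        filter_upwards [h3, h5] with y' e1 e2
        show Θ a (Θ' y') = Θ z y'
        rw [hid a haI _ e2, e1]
    · have h3 := h2 y fun z hz => hy z (Finset.mem_insert_of_mem hz)
      have h5 : ∀ᶠ y' in 𝓝 y, y' ∉ S a := (hS a haI).isOpen_compl.mem_nhds (hy a haI)
      filter_upwards [h3, h5] with y' e1 e2
      show Θ a (Θ' y') = y'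
      have e1' : Θ' y' = y' := e1
      rw [e1', hid a haI _ e2]

end

/-- a finite sum of small bumps with separated supports (adapted from `Pool.Agent.N813.OF.MULT`) -/
theorem small_sum {n k : ℕ} {c : ℝ} (hc : 0 ≤ c) (I : Finset ℕ) (f : ℕ → V n → V n)
    (x : ℕ → V n) (ρ : ℕ → ℝ) (hs : ∀ i ∈ I, ContDiff ℝ ∞ (f i))
    (hb : ∀ i ∈ I, ∀ j ≤ k, ∀ y, ‖iteratedFDeriv ℝ j (f i) y‖ ≤ c)
    (h0 : ∀ i ∈ I, ∀ y, ρ i ≤ ‖y - x i‖ → f i y = 0)
    (hsep : ∀ i ∈ I, ∀ j ∈ I, i ≠ j → ρ i + ρ j < ‖x i - x j‖)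
    (hin : ∀ i ∈ I, ‖x i‖ + ρ i ≤ 1 / 2) : Small n k c (fun y => ∑ i ∈ I, f i y) where
  smooth := ContDiff.sum hs
  supp := by
    intro y hy
    refine Finset.sum_eq_zero fun i hi => h0 i hi y ?_
    have := norm_sub_norm_le y (x i)
    have := hin i hi
    linarith
  bd := by
    intro j hj y
    have hz : ∀ i ∈ I, ρ i < ‖y - x i‖ → ∀ᶠ y' in 𝓝 y, f i y' = 0 := by
      intro i hi h1
      have hcont : ContinuousAt (fun y' => ‖y' - x i‖) y := by fun_prop
      filter_upwards [hcont.eventually (lt_mem_nhds h1)] with y' hy'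
      exact h0 i hi y' hy'.le
    by_cases hex : ∃ i₀ ∈ I, ‖y - x i₀‖ ≤ ρ i₀
    · obtain ⟨i₀, hi₀, h1⟩ := hex
      have h2 : ∀ᶠ y' in 𝓝 y, ∀ i ∈ I, i ≠ i₀ → f i y' = 0 := by
        rw [Finset.eventually_all]
        intro i hi
        by_cases hne : i = i₀
        · exact Eventually.of_forall fun _ h => absurd hne h
        · have h3 := hsep i hi i₀ hi₀ hne
          have h4 : ρ i < ‖y - x i‖ := by
            have h5 : ‖x i - x i₀‖ ≤ ‖y - x i‖ + ‖y - x i₀‖ := by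
              have h6 : x i - x i₀ = (y - x i₀) - (y - x i) := by abel
              rw [h6]
              have := norm_sub_le (y - x i₀) (y - x i)
              linarith
            linarith
          exact (hz i hi h4).mono fun _ h _ => h
      have h3 : (fun y => ∑ i ∈ I, f i y) =ᶠ[𝓝 y] f i₀ := by
        filter_upwards [h2] with y' hy'
        exact Finset.sum_eq_single_of_mem i₀ hi₀ hy'
      rw [(EventuallyEq.iteratedFDeriv ℝ h3 j).eq_of_nhds]
      exact hb i₀ hi₀ j hj y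
    · push Not at hex
      have h2 : ∀ᶠ y' in 𝓝 y, ∀ i ∈ I, f i y' = 0 := by
        rw [Finset.eventually_all]
        intro i hi
        exact hz i hi (hex i hi)
      have h3 : (fun y => ∑ i ∈ I, f i y) =ᶠ[𝓝 y] fun _ => 0 := by
        filter_upwards [h2] with y' hy'
        exact Finset.sum_eq_zero hy'
      rw [(EventuallyEq.iteratedFDeriv ℝ h3 j).eq_of_nhds]
      have h4 : iteratedFDeriv ℝ j (fun _ : V n => (0 : V n)) y = 0 := by
        have := congrFun (iteratedFDeriv_zero_fun (𝕜 := ℝ) (E := V n) (F := V n) (n := j)) y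
        simpa using this
      rw [h4, norm_zero]
      exact hc

end Pool.Agent.V8H52.OS
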