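import Pool.Agent.V8H52.OS.Glob

/-!
# A residual set of diffeomorphisms with continuous conjugacies
-/

set_option autoImplicit false
set_option linter.unusedSectionVars false

open scoped Manifold ContDiff Topology
open Filter Set Metric

universe u v

namespace Pool.Agent.V8H52.OS

open Pool.Agent.H718R2.G Pool.Agent.TH80.OMS Pool.Agent.Y504.CO

section

variable {n : ℕ} {N : Type u} [MetricSpace N] [CompactSpace N]
  [ChartedSpace (V n) N] [IsManifold (𝓡 n) ∞ N]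

theorem Good.restrict {r : ℕ∞} {P : Type v} [TopologicalSpace P] {E : P → DiffM n N r}
    {U M O : Set P} (h : Good E U M) (hO : IsOpen O) (hOU : O ⊆ U) : Good E O M where
  opn := hO
  mea := h.mea
  stab := fun G hG => h.stab G (hOU hG)
  near := by
    intro G hG hGM δ hδ
    obtain ⟨W, hW, hGW, -, h1, h2, h3⟩ := h.near G (hOU hG) hGM δ hδ
    refine ⟨W ∩ O, hW.inter hO, ⟨hGW, hG⟩, inter_subset_right,
      fun G₁ hG₁ a G₂ hG₂ b => h1 G₁ hG₁.1 a G₂ hG₂.1 b,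
      fun G₁ hG₁ a G₂ hG₂ => h2 G₁ hG₁.1 a G₂ hG₂.1, fun G₁ hG₁ G₂ hG₂ => h3 G₁ hG₁.1 G₂ hG₂.1⟩

theorem global_good {r : ℕ∞} (hr : 1 ≤ r) {P : Type v} [TopologicalSpace P]
    {E : P → DiffM n N r} (hE : ContE E) :
    ∃ R ∈ residual P, ∀ G ∈ R, OmegaStable n N r (E G) → ∀ δ : ℝ, 0 < δ →
      ∃ W : Set P, IsOpen W ∧ G ∈ W ∧
        (∀ G₁ ∈ W, OmegaStable n N r (E G₁)) ∧
        (∀ G₁ ∈ W, G₁ ∈ R → ∀ G₂ ∈ W, G₂ ∈ R → NearConj δ (E G₁) (E G₂)) ∧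
        (∀ G₁ ∈ W, G₁ ∈ R → ∀ G₂ ∈ W, Follows δ (E G₁) (E G₂)) ∧
        ∀ G₁ ∈ W, ∀ G₂ ∈ W, PerNear δ (E G₁) (E G₂) := by
  obtain ⟨A, hA⟩ : ∃ A, Maximal (fun A : Set (Set P) =>
      (∀ O ∈ A, ∃ M, Good E O M) ∧ A.PairwiseDisjoint id) A := by
    refine zorn_subset {A : Set (Set P) | (∀ O ∈ A, ∃ M, Good E O M) ∧
      A.PairwiseDisjoint id} ?_
    intro c hc hchain
    refine ⟨⋃₀ c, ⟨?_, ?_⟩, fun s hs => subset_sUnion_of_mem hs⟩
    · rintro O ⟨s, hs, hO⟩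
      exact (hc hs).1 O hO
    · rw [Set.pairwiseDisjoint_sUnion hchain.directedOn]
      exact fun s hs => (hc hs).2
  obtain ⟨⟨hA1, hA2⟩, hmax⟩ := hA
  have hμ : ∀ O : Set P, ∃ M, O ∈ A → Good E O M := by
    intro O
    by_cases hO : O ∈ A
    · obtain ⟨M, hM⟩ := hA1 O hO
      exact ⟨M, fun _ => hM⟩
    · exact ⟨∅, fun h => absurd h hO⟩
  choose μ hμ using hμ
  have hAo : ∀ O ∈ A, IsOpen O := fun O hO => (hμ O hO).opn
  have hdense : ∀ G, OmegaStable n N r (E G) → G ∈ closure (⋃₀ A) := by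
    intro G hG
    by_contra hcon
    obtain ⟨U, M, hUM, hGU⟩ := local_good hr hE hG
    set O := U ∩ (closure (⋃₀ A))ᶜ with hO
    have hOo : IsOpen O := hUM.opn.inter isClosed_closure.isOpen_compl
    have hOg : Good E O M := hUM.restrict hOo inter_subset_left
    have h1 : (∀ O' ∈ insert O A, ∃ M, Good E O' M) ∧ (insert O A).PairwiseDisjoint id := by
      refine ⟨?_, ?_⟩
      · rintro O' (rfl | hO')
        · exact ⟨M, hOg⟩
        · exact hA1 O' hO'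
      · refine hA2.insert fun B hB _ => ?_
        rw [Set.disjoint_left]
        intro z hz hzB
        exact hz.2 (subset_closure ⟨B, hB, hzB⟩)
    have h2 : O ∈ A := hmax h1 (subset_insert _ _) (mem_insert _ _)
    exact hcon (subset_closure ⟨O, h2, hGU, hcon⟩)
  set R : Set P := {G | OmegaStable n N r (E G) → ∃ O ∈ A, G ∈ O ∧ G ∉ μ O} with hR
  have hRm : IsMeagre Rᶜ := by
    set S : Set P := {G | ∀ O ∈ A, G ∈ O → G ∈ μ O} with hS
    have h1 : IsMeagre (S ∩ ⋃₀ A) := by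
      refine meagre_disjoint S hAo (fun O hO => ?_) hA2
      exact (hμ O hO).mea.mono fun G hG => hG.1 O hO hG.2
    have h2 : IsMeagre (closure (⋃₀ A) \ ⋃₀ A) := by
      have hAo' : IsOpen (⋃₀ A) := isOpen_sUnion hAo
      have h4 : IsNowhereDense (frontier (⋃₀ A)) := by
        rw [IsNowhereDense, isClosed_frontier.closure_eq, ← frontier_compl]
        exact interior_frontier hAo'.isClosed_compl
      rw [hAo'.frontier_eq] at h4
      exact h4.isMeagre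
    refine (h1.union h2).mono ?_
    intro G hG
    have hG' : ¬ (OmegaStable n N r (E G) → ∃ O ∈ A, G ∈ O ∧ G ∉ μ O) := hG
    push Not at hG'
    obtain ⟨h3, h4⟩ := hG'
    by_cases h5 : G ∈ ⋃₀ A
    · exact Or.inl ⟨h4, h5⟩
    · exact Or.inr ⟨hdense G h3, h5⟩
  have hRres : R ∈ residual P := by
    rw [IsMeagre, compl_compl] at hRm
    exact hRm
  refine ⟨R, hRres, fun G hG hGs δ hδ => ?_⟩
  obtain ⟨O, hO, hGO, hGμ⟩ := hG hGs
  obtain ⟨W, hW, hGW, hWO, h1, h2, h3⟩ := (hμ O hO).near G hGO hGμ δ hδ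
  have hRμ : ∀ G₁ ∈ W, G₁ ∈ R → G₁ ∉ μ O := by
    intro G₁ hG₁ hG₁R
    obtain ⟨O', hO', hGO', hGμ'⟩ := hG₁R ((hμ O hO).stab G₁ (hWO hG₁))
    have : O' = O := by
      by_contra hne
      exact Set.disjoint_left.1 (hA2 hO' hO hne) hGO' (hWO hG₁)
    rwa [this] at hGμ'
  exact ⟨W, hW, hGW, fun G₁ hG₁ => (hμ O hO).stab G₁ (hWO hG₁),
    fun G₁ hG₁ a G₂ hG₂ b => h1 G₁ hG₁ (hRμ G₁ hG₁ a) G₂ hG₂ (hRμ G₂ hG₂ b),
    fun G₁ hG₁ a G₂ hG₂ => h2 G₁ hG₁ (hRμ G₁ hG₁ a) G₂ hG₂, h3⟩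

end

end Pool.Agent.V8H52.OS
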