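import Mathlib

/-!
# The points at which a set is nonmeagre in every nonempty open subset of a neighbourhood
(any topological space, by the Banach category theorem)
-/

set_option autoImplicit false

open Set Filter Topology

namespace Pool.Agent.V8H52.OS

variable {X : Type*} [TopologicalSpace X]

/-- a nowhere dense union -/
theorem nowhereDense_iUnion {A : Set (Set X)} (hA : ∀ O ∈ A, IsOpen O)
    (hd : A.PairwiseDisjoint id) (E : Set X → Set X) (hE : ∀ O ∈ A, IsNowhereDense (E O)) :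
    IsNowhereDense (⋃ O ∈ A, O ∩ E O) := by
  rw [IsNowhereDense, eq_empty_iff_forall_notMem]
  intro x hx
  set Nn : Set X := ⋃ O ∈ A, O ∩ E O with hN
  set P := interior (closure Nn) with hP
  have hPo : IsOpen P := isOpen_interior
  have hPs : P ⊆ closure Nn := interior_subset
  obtain ⟨y, hyP, hyN⟩ := mem_closure_iff.1 (hPs hx) P hPo hx
  rw [hN] at hyN
  simp only [mem_iUnion, mem_inter_iff, exists_prop] at hyN
  obtain ⟨O, hO, hyO, -⟩ := hyN
  have hQ : IsOpen (P ∩ O) := hPo.inter (hA O hO)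
  have hsub : P ∩ O ⊆ closure (E O) := by
    rintro z ⟨hzP, hzO⟩
    rw [mem_closure_iff]
    intro V hV hzV
    obtain ⟨w, ⟨hwV, hwO⟩, hwN⟩ := mem_closure_iff.1 (hPs hzP) (V ∩ O) (hV.inter (hA O hO))
      ⟨hzV, hzO⟩
    rw [hN] at hwN
    simp only [mem_iUnion, mem_inter_iff, exists_prop] at hwN
    obtain ⟨O', hO', hwO', hwE⟩ := hwN
    have : O = O' := by
      by_contra hne
      exact Set.disjoint_left.1 (hd hO hO' hne) hwO hwO'
    subst this
    exact ⟨w, hwV, hwE⟩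
  have h1 : P ∩ O ⊆ interior (closure (E O)) := interior_maximal hsub hQ
  have h2 := hE O hO
  rw [IsNowhereDense] at h2
  rw [h2] at h1
  exact h1 ⟨hyP, hyO⟩

/-- the union of pairwise disjoint open sets in which `S` is meagre -/
theorem meagre_disjoint (S : Set X) {A : Set (Set X)} (hA : ∀ O ∈ A, IsOpen O)
    (hm : ∀ O ∈ A, IsMeagre (S ∩ O)) (hd : A.PairwiseDisjoint id) : IsMeagre (S ∩ ⋃₀ A) := by
  have h : ∀ O : Set X, ∃ f : ℕ → Set X, O ∈ A → (∀ n, IsNowhereDense (f n)) ∧ S ∩ O ⊆ ⋃ n, f n := by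
    intro O
    by_cases hO : O ∈ A
    · obtain ⟨T, hT, hc, hs⟩ := isMeagre_iff_countable_union_isNowhereDense.1 (hm O hO)
      rcases T.eq_empty_or_nonempty with he | hne
      · refine ⟨fun _ => ∅, fun _ => ⟨fun _ => isNowhereDense_empty, ?_⟩⟩
        rw [he, sUnion_empty] at hs
        exact hs.trans (empty_subset _)
      · obtain ⟨f, hf⟩ := hc.exists_eq_range hne
        refine ⟨f, fun _ => ⟨fun n => hT _ (by rw [hf]; exact ⟨n, rfl⟩), ?_⟩⟩
        rw [hf, sUnion_range] at hs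
        exact hs
    · exact ⟨fun _ => ∅, fun h => absurd h hO⟩
  choose f hf using h
  have hsub : S ∩ ⋃₀ A ⊆ ⋃ n, ⋃ O ∈ A, O ∩ f O n := by
    rintro x ⟨hxS, O, hO, hxO⟩
    obtain ⟨n, hn⟩ := mem_iUnion.1 ((hf O hO).2 ⟨hxS, hxO⟩)
    simp only [mem_iUnion, mem_inter_iff, exists_prop]
    exact ⟨n, O, hO, hxO, hn⟩
  refine IsMeagre.mono hsub (isMeagre_iUnion fun n => ?_)
  exact (nowhereDense_iUnion hA hd (fun O => f O n) fun O hO => (hf O hO).1 n).isMeagre

/-- Banach's category theorem. -/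
theorem meagre_sUnion (S : Set X) :
    IsMeagre (S ∩ closure (⋃₀ {O : Set X | IsOpen O ∧ IsMeagre (S ∩ O)})) := by
  set 𝒪 : Set (Set X) := {O | IsOpen O ∧ IsMeagre (S ∩ O)} with h𝒪
  obtain ⟨A, hA⟩ : ∃ A, Maximal (fun A : Set (Set X) => A ⊆ 𝒪 ∧ A.PairwiseDisjoint id) A := by
    refine zorn_subset {A : Set (Set X) | A ⊆ 𝒪 ∧ A.PairwiseDisjoint id} ?_
    intro c hc hchain
    refine ⟨⋃₀ c, ⟨sUnion_subset fun s hs => (hc hs).1, ?_⟩, fun s hs => subset_sUnion_of_mem hs⟩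
    rw [Set.pairwiseDisjoint_sUnion hchain.directedOn]
    exact fun s hs => (hc hs).2
  obtain ⟨⟨hA1, hA2⟩, hmax⟩ := hA
  have hAo : IsOpen (⋃₀ A) := isOpen_sUnion fun O hO => (hA1 hO).1
  have hcl : ⋃₀ 𝒪 ⊆ closure (⋃₀ A) := by
    rintro x ⟨O, hO, hxO⟩
    by_contra hx
    set O' := O ∩ (closure (⋃₀ A))ᶜ with hO'
    have hO'o : IsOpen O' := hO.1.inter isClosed_closure.isOpen_compl
    have h1 : insert O' A ⊆ 𝒪 ∧ (insert O' A).PairwiseDisjoint id := by
      refine ⟨insert_subset ⟨hO'o, hO.2.mono (inter_subset_inter_right _ inter_subset_left)⟩ hA1, ?_⟩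
      refine hA2.insert fun B hB _ => ?_
      rw [Set.disjoint_left]
      intro z hz hzB
      exact hz.2 (subset_closure ⟨B, hB, hzB⟩)
    have h2 : O' ∈ A := hmax h1 (subset_insert _ _) (mem_insert _ _)
    exact hx (subset_closure ⟨O', h2, hxO, hx⟩)
  have h3 : S ∩ closure (⋃₀ 𝒪) ⊆ (S ∩ ⋃₀ A) ∪ (closure (⋃₀ A) \ ⋃₀ A) := by
    rintro x ⟨hxS, hx⟩
    by_cases h : x ∈ ⋃₀ A
    · exact Or.inl ⟨hxS, h⟩
    · exact Or.inr ⟨closure_minimal hcl isClosed_closure hx, h⟩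
  refine IsMeagre.mono h3 (IsMeagre.union
    (meagre_disjoint S (fun O hO => (hA1 hO).1) (fun O hO => (hA1 hO).2) hA2) ?_)
  have h4 : IsNowhereDense (frontier (⋃₀ A)) := by
    rw [IsNowhereDense, isClosed_frontier.closure_eq, ← frontier_compl]
    exact interior_frontier hAo.isClosed_compl
  rw [hAo.frontier_eq] at h4
  exact h4.isMeagre

/-- `S` is nonmeagre in every nonempty open subset of a neighbourhood of `x`. -/
def Heavy (S : Set X) (x : X) : Prop :=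
  ∃ V : Set X, IsOpen V ∧ x ∈ V ∧ ∀ O : Set X, IsOpen O → O ⊆ V → O.Nonempty → ¬ IsMeagre (S ∩ O)

theorem meagre_not_heavy (S : Set X) : IsMeagre {x | x ∈ S ∧ ¬ Heavy S x} := by
  refine IsMeagre.mono ?_ (meagre_sUnion S)
  rintro x ⟨hxS, hx⟩
  refine ⟨hxS, ?_⟩
  rw [mem_closure_iff]
  intro V hV hxV
  by_contra hcon
  apply hx
  refine ⟨V, hV, hxV, fun O hO hOV hOne hm => hcon ?_⟩
  obtain ⟨y, hy⟩ := hOne
  exact ⟨y, hOV hy, O, ⟨hO, hm⟩, hy⟩

/-- the residual set of the points which are heavy for all the sets of a countable family which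
contain them -/
theorem residual_heavy (S : ℕ → Set X) :
    ∃ R : ℕ → Set X, (∀ j, IsOpen (R j)) ∧ (∀ j, Dense (R j)) ∧
      ∀ x, (∀ j, x ∈ R j) → ∀ i, x ∈ S i → Heavy (S i) x := by
  have h : IsMeagre (⋃ i, {x | x ∈ S i ∧ ¬ Heavy (S i) x}) :=
    isMeagre_iUnion fun i => meagre_not_heavy (S i)
  rw [IsMeagre, mem_residual_iff] at h
  obtain ⟨T, h1, h2, h3, h4⟩ := h
  have key : ∃ R : ℕ → Set X, (∀ j, IsOpen (R j)) ∧ (∀ j, Dense (R j)) ∧ (⋂ j, R j) ⊆ ⋂₀ T := by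
    rcases T.eq_empty_or_nonempty with he | hne
    · refine ⟨fun _ => univ, fun _ => isOpen_univ, fun _ => dense_univ, ?_⟩
      rw [he, sInter_empty]
      exact subset_univ _
    · obtain ⟨f, hf⟩ := h3.exists_eq_range hne
      refine ⟨f, fun j => h1 _ (by rw [hf]; exact ⟨j, rfl⟩), fun j => h2 _ (by rw [hf]; exact ⟨j, rfl⟩), ?_⟩
      rw [hf, sInter_range]
  obtain ⟨R, hR1, hR2, hR3⟩ := key
  refine ⟨R, hR1, hR2, fun x hx i hxi => ?_⟩
  have h5 := h4 (hR3 (mem_iInter.2 hx))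
  by_contra hcon
  exact h5 (mem_iUnion.2 ⟨i, hxi, hcon⟩)

end Pool.Agent.V8H52.OS
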