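import Pool.Agent.V8H52.OS.Rel
import Pool.Agent.Y504.CO.KSG
import Pool.Agent.Y675.CO.CI

/-!
# Following the periodic points of the maps near a point of continuity
-/

set_option autoImplicit false
set_option linter.unusedSectionVars false

open scoped Manifold ContDiff Topology
open Filter Set Metric

universe u

namespace Pool.Agent.V8H52.OS

open Pool.Agent.H718R2.G Pool.Agent.TH80.OMS Pool.Agent.Y504.CO

theorem om_eq {N : Type u} [TopologicalSpace N] (F : N → N) : Om F = Omega F := rfl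

/-- the family of all diffeomorphisms is jointly continuous -/
theorem joint_cont (n : ℕ) (N : Type u) [TopologicalSpace N] [T2Space N] [CompactSpace N]
    [ChartedSpace (V n) N] [IsManifold (𝓡 n) ∞ N] {r : ℕ∞} (hr : 1 ≤ r) :
    @Continuous (DiffM n N r × N) N (@instTopologicalSpaceProd _ _ (strongTop n N r) _) _
      (fun p => p.1 p.2) := by
  letI := strongTop n N r
  rw [continuous_iff_continuousAt]
  rintro ⟨G, y⟩
  intro O hO
  obtain ⟨B, hBO, hB, hyB⟩ := mem_nhds_iff.1 hO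
  obtain ⟨W, hW, U, hU, hGU, h⟩ := (Pool.Agent.Y675.CO.CI.main n N r hr G 1 y).1 B hB hyB
  rw [mem_map, nhds_prod_eq]
  filter_upwards [prod_mem_prod (hU.mem_nhds hGU) hW] with p hp
  exact hBO (h p.1 hp.1 p.2 hp.2)

/-- `‖w - A w‖ ≥ c ‖w‖` if the sequence `A, A, ...` has no bounded orbits -/
theorem lower_of_noBdd {n : ℕ} {A : V n →L[ℝ] V n} (hA : NoBdd (fun _ => A)) :
    ∃ c : ℝ, 0 < c ∧ ∀ w : V n, c * ‖w‖ ≤ ‖w - A w‖ := by
  have hinj : Function.Injective ((ContinuousLinearMap.id ℝ (V n) - A : V n →L[ℝ] V n) :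
      V n →ₗ[ℝ] V n) := by
    rw [← LinearMap.ker_eq_bot, LinearMap.ker_eq_bot']
    intro w hw
    have hw' : w - A w = 0 := hw
    have h1 : w = A w := sub_eq_zero.1 hw'
    exact hA (fun _ => w) ⟨‖w‖, fun _ => le_rfl⟩ (fun _ => h1) 0
  obtain ⟨K, hK, hanti⟩ := LinearMap.exists_antilipschitzWith
    ((ContinuousLinearMap.id ℝ (V n) - A : V n →L[ℝ] V n) : V n →ₗ[ℝ] V n)
    (LinearMap.ker_eq_bot.2 hinj)
  have hK' : (0 : ℝ) < K := by exact_mod_cast hK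
  refine ⟨(K : ℝ)⁻¹, inv_pos.2 hK', fun w => ?_⟩
  have h1 := hanti.le_mul_dist w 0
  rw [dist_zero_right, map_zero, dist_zero_right] at h1
  have h2 : ‖w‖ ≤ K * ‖w - A w‖ := h1
  rw [inv_mul_le_iff₀ hK']
  exact h2

section

variable {n : ℕ} {N : Type u} [TopologicalSpace N] [T2Space N] [CompactSpace N]
  [ChartedSpace (V n) N] [IsManifold (𝓡 n) ∞ N]

/-- local uniqueness of the fixed points of `g^m` near a hyperbolic fixed point of `G^m`, for all `g`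
near `G` -/
theorem loc_unique {r : ℕ∞} (hr : 1 ≤ r) (G : DiffM n N r) {m : ℕ} (hm : 1 ≤ m) {p : N}
    (hp : G^[m] p = p) (hyp : HypAt n G p) : ∃ A ∈ 𝓝 p, ∃ O : Set (DiffM n N r),
      IsOpen[strongTop n N r] O ∧ G ∈ O ∧ ∀ g ∈ O, ∀ y₁ ∈ A, ∀ y₂ ∈ A, g^[m] y₁ = y₁ →
        g^[m] y₂ = y₂ → y₁ = y₂ := by
  set χ := chartAt (V n) p with hχ
  have hχm : χ ∈ IsManifold.maximalAtlas (𝓡 n) ∞ N := IsManifold.chart_mem_maximalAtlas p
  have hpχ : p ∈ χ.source := mem_chart_source (V n) p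
  obtain ⟨c, hc, hlow⟩ := lower_of_noBdd (hyp m hm hp χ hχm hpχ)
  set A₀ := fderiv ℝ (fun v => χ (G^[m] (χ.symm v))) (χ p) with hA₀
  obtain ⟨W, hW, O, hO, hGO, h⟩ := (Pool.Agent.Y675.CO.CI.main n N r hr G m p).2 χ hχm χ hχm hpχ
    (by rw [hp]; exact hpχ) (c / 2) (by positivity)
  -- a ball in the chart
  obtain ⟨ε, hε, hball⟩ : ∃ ε > 0, ball (χ p) ε ⊆ χ.target ∩ χ.symm ⁻¹' W := by
    have h1 : χ.target ∈ 𝓝 (χ p) := χ.open_target.mem_nhds (χ.map_source hpχ)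
    have h2 : χ.symm ⁻¹' W ∈ 𝓝 (χ p) := by
      refine (χ.continuousAt_symm (χ.map_source hpχ)).preimage_mem_nhds ?_
      rw [χ.left_inv hpχ]
      exact hW
    exact Metric.mem_nhds_iff.1 (inter_mem h1 h2)
  refine ⟨χ.source ∩ χ ⁻¹' ball (χ p) ε, ?_, O, hO, hGO, ?_⟩
  · exact inter_mem (χ.open_source.mem_nhds hpχ)
      ((χ.continuousAt hpχ).preimage_mem_nhds (ball_mem_nhds _ hε))
  rintro g hg y₁ ⟨hy₁, hb₁⟩ y₂ ⟨hy₂, hb₂⟩ hf₁ hf₂
  have hW' : ∀ v ∈ ball (χ p) ε, DifferentiableAt ℝ (fun v => χ (g^[m] (χ.symm v))) v ∧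
      ‖fderiv ℝ (fun v => χ (g^[m] (χ.symm v))) v - A₀‖ ≤ c / 2 := by
    intro v hv
    obtain ⟨hvt, hvW⟩ := hball hv
    obtain ⟨h1, h2, h3⟩ := h g hg (χ.symm v) hvW
    rw [χ.right_inv hvt] at h3
    exact ⟨(Pool.Agent.Y675.CO.CI.cdm (Pool.Agent.Y675.CO.CI.smooth_iter hr g m) hχm hχm hvt
      h2).differentiableAt (by norm_num), h3.le⟩
  have hmv := (convex_ball (χ p) ε).norm_image_sub_le_of_norm_fderiv_le'
    (f := fun v => χ (g^[m] (χ.symm v))) (φ := A₀) (fun v hv => (hW' v hv).1)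
    (fun v hv => (hW' v hv).2) hb₁ hb₂
  simp only [χ.left_inv hy₁, χ.left_inv hy₂, hf₁, hf₂] at hmv
  have h5 := hlow (χ y₂ - χ y₁)
  have h6 : ‖χ y₂ - χ y₁‖ = 0 := by
    have h7 : c * ‖χ y₂ - χ y₁‖ ≤ c / 2 * ‖χ y₂ - χ y₁‖ := h5.trans hmv
    nlinarith [norm_nonneg (χ y₂ - χ y₁)]
  have h8 : χ y₂ = χ y₁ := by rwa [norm_eq_zero, sub_eq_zero] at h6
  exact (χ.injOn hy₂ hy₁ h8).symm

end

end Pool.Agent.V8H52.OS
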