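import Pool.Agent.V8H52.OS.BU

/-!
# Families of maps which are all conjugate on their nonwandering sets: generic continuity of the
conjugacies
-/

set_option autoImplicit false
set_option linter.unusedSectionVars false

open Set Filter Topology Metric

universe u

namespace Pool.Agent.V8H52.OS

/-- the nonwandering set (the same as `Pool.Agent.TH80.OMS.Omega`) -/
def Om {N : Type*} [TopologicalSpace N] (F : N → N) : Set N :=
  {x | ∀ W : Set N, IsOpen W → x ∈ W → ∃ k : ℕ, 1 ≤ k ∧ ∃ y ∈ W, F^[k] y ∈ W}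

theorem om_closed {N : Type*} [TopologicalSpace N] (F : N → N) : IsClosed (Om F) := by
  rw [← isOpen_compl_iff, isOpen_iff_forall_mem_open]
  intro x hx
  have hx' : ¬ ∀ W : Set N, IsOpen W → x ∈ W → ∃ k : ℕ, 1 ≤ k ∧ ∃ y ∈ W, F^[k] y ∈ W := hx
  push Not at hx'
  obtain ⟨W, hW, hxW, h⟩ := hx'
  refine ⟨W, fun y hy hyO => ?_, hW, hxW⟩
  obtain ⟨k, hk, z, hz, hzk⟩ := hyO W hW hy
  exact h k hk z hz hzk

/-- a closed set with a locally constant parameter -/
theorem closed_param {P : Type*} [TopologicalSpace P] {φ : P → ℕ} (hφ : Continuous φ)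
    (A : ℕ → Set P) (hA : ∀ k, IsClosed (A k)) : IsClosed {p | p ∈ A (φ p)} := by
  rw [← isOpen_compl_iff]
  have h : {p | p ∈ A (φ p)}ᶜ = ⋃ k, φ ⁻¹' {k} ∩ (A k)ᶜ := by
    ext p
    constructor
    · intro hp
      exact mem_iUnion.2 ⟨φ p, rfl, hp⟩
    · intro hp
      obtain ⟨k, h1, h2⟩ := mem_iUnion.1 hp
      have h3 : φ p = k := h1
      intro h4
      have h5 : p ∈ A (φ p) := h4
      rw [h3] at h5
      exact h2 h5
  rw [h]
  exact isOpen_iUnion fun k => ((isOpen_discrete _).preimage hφ).inter (hA k).isOpen_compl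

/-- projection along a compact space -/
theorem closed_ex {P Y : Type*} [TopologicalSpace P] [TopologicalSpace Y] [CompactSpace Y]
    {S : Set (P × Y)} (hS : IsClosed S) : IsClosed {p : P | ∃ y, (p, y) ∈ S} := by
  have h : {p : P | ∃ y, (p, y) ∈ S} = Prod.fst '' S := by
    ext p
    constructor
    · rintro ⟨y, hy⟩
      exact ⟨(p, y), hy, rfl⟩
    · rintro ⟨⟨q, y⟩, hy, rfl⟩
      exact ⟨y, hy⟩
  rw [h]
  exact isClosedMap_fst_of_compactSpace _ hS

section rel

variable {X : Type*} [TopologicalSpace X] {N : Type*} [MetricSpace N] [CompactSpace N]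
  {K : Type*} [MetricSpace K] [CompactSpace K]

/-- the witnesses -/
abbrev Wit (K N : Type*) [TopologicalSpace K] [TopologicalSpace N] : Type _ :=
  C(K, N) × ((ℕ → ℕ) × ((ℕ → ℕ) × (ℕ → ℕ)))

/-- the relation -/
structure Rl (g : X → N → N) (f : K → K) (B : ℕ → Set N) (p : X × Wit K N) : Prop where
  inj : ∀ (x y : K) (n : ℕ), 1 / ((n : ℝ) + 1) ≤ dist x y →
    1 / ((p.2.2.1 n : ℝ) + 1) ≤ dist (p.2.1 x) (p.2.1 y)
  eqv : ∀ x : K, p.2.1 (f x) = g p.1 (p.2.1 x)
  sub : ∀ j : ℕ, (∀ x : K, p.2.1 x ∉ B j) ∨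
    ∃ y ∈ closure (B j), (g p.1)^[p.2.2.2.1 j + 1] y ∈ closure (B j)
  sup : ∀ (n : ℕ) (y : N), (∃ x : K, dist y (p.2.1 x) ≤ 1 / ((n : ℝ) + 1)) ∨
    ∃ j < p.2.2.2.2 n, y ∈ B j ∧ ∀ k : ℕ, 1 ≤ k → ∀ z ∈ B j, (g p.1)^[k] z ∉ B j

theorem iter_cont {g : X → N → N} (hg : Continuous fun p : X × N => g p.1 p.2) (k : ℕ) :
    Continuous fun p : X × N => (g p.1)^[k] p.2 := by
  induction k with
  | zero => exact continuous_snd
  | succ k ih =>
    have h : (fun p : X × N => (g p.1)^[k + 1] p.2) = fun p => g p.1 ((g p.1)^[k] p.2) := by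
      funext p
      exact Function.iterate_succ_apply' _ _ _
    rw [h]
    exact hg.comp (continuous_fst.prodMk ih)

theorem eval_cont (x : K) : Continuous fun p : X × Wit K N => p.2.1 x :=
  (ContinuousEvalConst.continuous_eval_const (F := C(K, N)) x).comp
    (continuous_fst.comp continuous_snd)

theorem eval_cont2 {P : Type*} [TopologicalSpace P] {φ : P → C(K, N)} (hφ : Continuous φ)
    {x : P → K} (hx : Continuous x) : Continuous fun p => φ p (x p) :=
  hφ.eval hx

theorem closed_all {P : Type*} [TopologicalSpace P] {ι : Sort*} {q : ι → P → Prop}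
    (h : ∀ i, IsClosed {p | q i p}) : IsClosed {p | ∀ i, q i p} := by
  have e : {p | ∀ i, q i p} = ⋂ i, {p | q i p} := by
    ext p
    rw [mem_iInter]
    rfl
  rw [e]
  exact isClosed_iInter h

theorem closed_or {P : Type*} [TopologicalSpace P] {q r : P → Prop}
    (h : IsClosed {p | q p}) (h' : IsClosed {p | r p}) : IsClosed {p | q p ∨ r p} :=
  h.union h'

theorem rl_closed {g : X → N → N} (hg : Continuous fun p : X × N => g p.1 p.2) (f : K → K)
    (B : ℕ → Set N) (hB : ∀ j, IsOpen (B j)) : IsClosed {p : X × Wit K N | Rl g f B p} := by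
  classical
  have h1 : IsClosed {p : X × Wit K N | ∀ (x y : K) (n : ℕ), 1 / ((n : ℝ) + 1) ≤ dist x y →
      1 / ((p.2.2.1 n : ℝ) + 1) ≤ dist (p.2.1 x) (p.2.1 y)} := by
    refine closed_all fun x => closed_all fun y => closed_all fun n => closed_all fun _ => ?_
    refine isClosed_le ?_ ((eval_cont x).dist (eval_cont y))
    have h2 : Continuous fun p : X × Wit K N => p.2.2.1 n :=
      (continuous_apply n).comp (continuous_fst.comp (continuous_snd.comp continuous_snd))
    exact (continuous_of_discreteTopology (f := fun m : ℕ => 1 / ((m : ℝ) + 1))).comp h2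
  have h2 : IsClosed {p : X × Wit K N | ∀ x : K, p.2.1 (f x) = g p.1 (p.2.1 x)} := by
    refine closed_all fun x => ?_
    exact isClosed_eq (eval_cont (f x)) (hg.comp (continuous_fst.prodMk (eval_cont x)))
  have h3 : IsClosed {p : X × Wit K N | ∀ j : ℕ, (∀ x : K, p.2.1 x ∉ B j) ∨
      ∃ y ∈ closure (B j), (g p.1)^[p.2.2.2.1 j + 1] y ∈ closure (B j)} := by
    refine closed_all fun j => closed_or ?_ ?_
    · exact closed_all fun x => (hB j).isClosed_compl.preimage (eval_cont x)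
    · have hb : Continuous fun p : X × Wit K N => p.2.2.2.1 j :=
        (continuous_apply j).comp (continuous_fst.comp (continuous_snd.comp
          (continuous_snd.comp continuous_snd)))
      refine closed_param hb (fun k => {p : X × Wit K N | ∃ y ∈ closure (B j),
        (g p.1)^[k + 1] y ∈ closure (B j)}) fun k => ?_
      have h4 : IsClosed {q : (X × Wit K N) × N | q.2 ∈ closure (B j) ∧
          (g q.1.1)^[k + 1] q.2 ∈ closure (B j)} := by
        refine IsClosed.inter (isClosed_closure.preimage continuous_snd) ?_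
        have h5 : Continuous fun q : (X × Wit K N) × N => (g q.1.1)^[k + 1] q.2 :=
          (iter_cont hg (k + 1)).comp ((continuous_fst.comp continuous_fst).prodMk continuous_snd)
        exact isClosed_closure.preimage h5
      exact closed_ex h4
  have h4 : IsClosed {p : X × Wit K N | ∀ (n : ℕ) (y : N),
      (∃ x : K, dist y (p.2.1 x) ≤ 1 / ((n : ℝ) + 1)) ∨
      ∃ j < p.2.2.2.2 n, y ∈ B j ∧ ∀ k : ℕ, 1 ≤ k → ∀ z ∈ B j, (g p.1)^[k] z ∉ B j} := by
    refine closed_all fun n => closed_all fun y => closed_or ?_ ?_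
    · have h5 : IsClosed {q : (X × Wit K N) × K | dist y (q.1.2.1 q.2) ≤ 1 / ((n : ℝ) + 1)} := by
        refine isClosed_le (continuous_const.dist ?_) continuous_const
        exact eval_cont2 (continuous_fst.comp (continuous_snd.comp continuous_fst)) continuous_snd
      exact closed_ex h5
    · have hb : Continuous fun p : X × Wit K N => p.2.2.2.2 n :=
        (continuous_apply n).comp (continuous_snd.comp (continuous_snd.comp
          (continuous_snd.comp continuous_snd)))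
      refine closed_param hb (fun c => {p : X × Wit K N | ∃ j < c, y ∈ B j ∧
        ∀ k : ℕ, 1 ≤ k → ∀ z ∈ B j, (g p.1)^[k] z ∉ B j}) fun c => ?_
      have e : {p : X × Wit K N | ∃ j < c, y ∈ B j ∧
          ∀ k : ℕ, 1 ≤ k → ∀ z ∈ B j, (g p.1)^[k] z ∉ B j} =
          ⋃ j ∈ (Finset.range c).filter (fun j => y ∈ B j), {p : X × Wit K N |
            ∀ k : ℕ, 1 ≤ k → ∀ z ∈ B j, (g p.1)^[k] z ∉ B j} := by
        ext p
        simp only [mem_iUnion, Finset.mem_filter, Finset.mem_range]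
        constructor
        · rintro ⟨j, hj, hy, h⟩
          exact ⟨j, ⟨hj, hy⟩, h⟩
        · rintro ⟨j, ⟨hj, hy⟩, h⟩
          exact ⟨j, hj, hy, h⟩
      rw [e]
      refine Set.Finite.isClosed_biUnion (Finset.finite_toSet _) fun j _ => ?_
      refine closed_all fun k => closed_all fun _ => closed_all fun z => closed_all fun _ => ?_
      have h6 : Continuous fun p : X × Wit K N => (g p.1)^[k] z :=
        (iter_cont hg k).comp (continuous_fst.prodMk continuous_const)
      exact (hB j).isClosed_compl.preimage h6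
  have h := ((h1.inter h2).inter h3).inter h4
  have e : ∀ S : Set (X × Wit K N), IsClosed S → (∀ p, p ∈ S ↔ Rl g f B p) →
      IsClosed {p : X × Wit K N | Rl g f B p} := by
    intro S hS h
    have h' : S = {p : X × Wit K N | Rl g f B p} := Set.ext h
    rwa [← h']
  exact e _ h fun p => ⟨fun ⟨⟨⟨a, b⟩, c⟩, d⟩ => ⟨a, b, c, d⟩,
    fun h => ⟨⟨⟨h.inj, h.eqv⟩, h.sub⟩, h.sup⟩⟩

/-- countable basis with small closures -/
theorem exists_basis (N : Type*) [MetricSpace N] [CompactSpace N] :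
    ∃ B : ℕ → Set N, (∀ j, IsOpen (B j)) ∧ ∀ (x : N) (O : Set N), IsOpen O → x ∈ O →
      ∃ j, x ∈ B j ∧ closure (B j) ⊆ O := by
  obtain ⟨b, hbc, -, hb⟩ := TopologicalSpace.exists_countable_basis N
  obtain ⟨B, hB⟩ := (hbc.insert ∅).exists_eq_range ⟨∅, mem_insert _ _⟩
  refine ⟨B, fun j => ?_, fun x O hO hx => ?_⟩
  · have h1 : B j ∈ insert ∅ b := by rw [hB]; exact ⟨j, rfl⟩
    rcases h1 with h1 | h1
    · rw [h1]; exact isOpen_empty
    · exact hb.isOpen h1
  · obtain ⟨s, hs, hxs, hsO⟩ := hb.exists_closure_subset (hO.mem_nhds hx)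
    have h1 : s ∈ range B := by rw [← hB]; exact mem_insert_of_mem _ hs
    obtain ⟨j, rfl⟩ := h1
    exact ⟨j, hxs, hsO⟩

/-- soundness of the relation -/
theorem rl_sound {g : X → N → N} {f : K → K} {B : ℕ → Set N} (hB : ∀ j, IsOpen (B j))
    (hB' : ∀ (x : N) (O : Set N), IsOpen O → x ∈ O → ∃ j, x ∈ B j ∧ closure (B j) ⊆ O)
    {G : X} {w : Wit K N} (h : Rl g f B (G, w)) :
    Function.Injective w.1 ∧ range w.1 = Om (g G) ∧ ∀ x, w.1 (f x) = g G (w.1 x) := by
  refine ⟨fun x y hxy => ?_, ?_, h.eqv⟩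
  · by_contra hne
    have h1 : 0 < dist x y := dist_pos.2 hne
    obtain ⟨n, hn⟩ := exists_nat_one_div_lt h1
    have h2 := h.inj x y n hn.le
    have h3 : w.1 x = w.1 y := hxy
    rw [show (G, w).2.1 x = w.1 x from rfl, show (G, w).2.1 y = w.1 y from rfl, h3, dist_self] at h2
    have h4 : 0 < 1 / (((G, w).2.2.1 n : ℝ) + 1) := by positivity
    linarith
  · refine subset_antisymm ?_ ?_
    · rintro _ ⟨x, rfl⟩ O hO hxO
      obtain ⟨j, hj, hjO⟩ := hB' _ O hO hxO
      rcases h.sub j with h1 | ⟨y, hy, hyk⟩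
      · exact absurd hj (h1 x)
      · exact ⟨_, Nat.succ_pos _, y, hjO hy, hjO hyk⟩
    · intro y hy
      have hcl : IsClosed (range w.1) := (isCompact_range w.1.continuous).isClosed
      rw [← hcl.closure_eq, Metric.mem_closure_iff]
      intro ε hε
      obtain ⟨n, hn⟩ := exists_nat_one_div_lt hε
      rcases h.sup n y with ⟨x, hx⟩ | ⟨j, -, hyj, h1⟩
      · exact ⟨w.1 x, ⟨x, rfl⟩, lt_of_le_of_lt hx hn⟩
      · exfalso
        obtain ⟨k, hk, z, hz, hzk⟩ := hy (B j) (hB j) hyj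
        exact h1 k hk z hz hzk

/-- completeness of the relation -/
theorem rl_complete {g : X → N → N} {f : K → K} {B : ℕ → Set N} (hB : ∀ j, IsOpen (B j))
    (hB' : ∀ (x : N) (O : Set N), IsOpen O → x ∈ O → ∃ j, x ∈ B j ∧ closure (B j) ⊆ O)
    {G : X} (h : C(K, N)) (hi : Function.Injective h) (hr : range h = Om (g G))
    (he : ∀ x, h (f x) = g G (h x)) : ∃ w : Wit K N, Rl g f B (G, w) := by
  have ha : ∀ n : ℕ, ∃ a : ℕ, ∀ x y : K, 1 / ((n : ℝ) + 1) ≤ dist x y →
      1 / ((a : ℝ) + 1) ≤ dist (h x) (h y) := by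
    intro n
    have hc : IsCompact {p : K × K | 1 / ((n : ℝ) + 1) ≤ dist p.1 p.2} :=
      (isClosed_le continuous_const continuous_dist).isCompact
    rcases Set.eq_empty_or_nonempty {p : K × K | 1 / ((n : ℝ) + 1) ≤ dist p.1 p.2} with he | hne
    · refine ⟨0, fun x y hxy => ?_⟩
      have : (x, y) ∈ {p : K × K | 1 / ((n : ℝ) + 1) ≤ dist p.1 p.2} := hxy
      rw [he] at this
      exact this.elim
    · have hcont : Continuous fun p : K × K => dist (h p.1) (h p.2) :=
        (h.continuous.comp continuous_fst).dist (h.continuous.comp continuous_snd)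
      obtain ⟨p, hp, hmin⟩ := hc.exists_isMinOn hne hcont.continuousOn
      have hp0 : 0 < dist (h p.1) (h p.2) := by
        refine dist_pos.2 fun heq => ?_
        have h1 : p.1 = p.2 := hi heq
        have h2 : 1 / ((n : ℝ) + 1) ≤ dist p.1 p.2 := hp
        rw [h1, dist_self] at h2
        have : 0 < 1 / ((n : ℝ) + 1) := by positivity
        linarith
      obtain ⟨a, ha⟩ := exists_nat_one_div_lt hp0
      exact ⟨a, fun x y hxy => ha.le.trans (hmin (show (x, y) ∈ _ from hxy))⟩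
  choose a ha using ha
  have hb : ∀ j : ℕ, ∃ b : ℕ, (∀ x : K, h x ∉ B j) ∨
      ∃ y ∈ closure (B j), (g G)^[b + 1] y ∈ closure (B j) := by
    intro j
    by_cases hj : ∀ x : K, h x ∉ B j
    · exact ⟨0, Or.inl hj⟩
    · push Not at hj
      obtain ⟨x, hx⟩ := hj
      have h1 : h x ∈ Om (g G) := by rw [← hr]; exact ⟨x, rfl⟩
      obtain ⟨k, hk, y, hy, hyk⟩ := h1 (B j) (hB j) hx
      refine ⟨k - 1, Or.inr ⟨y, subset_closure hy, ?_⟩⟩
      rw [Nat.sub_add_cancel hk]
      exact subset_closure hyk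
  choose b hb using hb
  have hc : ∀ n : ℕ, ∃ c : ℕ, ∀ y : N, (∃ x : K, dist y (h x) ≤ 1 / ((n : ℝ) + 1)) ∨
      ∃ j < c, y ∈ B j ∧ ∀ k : ℕ, 1 ≤ k → ∀ z ∈ B j, (g G)^[k] z ∉ B j := by
    intro n
    -- the set of the points far from the image is compact and consists of wandering points
    have hopen : ∀ y : N, y ∉ Om (g G) → ∃ j, y ∈ B j ∧
        ∀ k : ℕ, 1 ≤ k → ∀ z ∈ B j, (g G)^[k] z ∉ B j := by
      intro y hy
      have hy' : ¬ ∀ W : Set N, IsOpen W → y ∈ W → ∃ k : ℕ, 1 ≤ k ∧ ∃ z ∈ W, (g G)^[k] z ∈ W := hy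
      push Not at hy'
      obtain ⟨W, hW, hyW, hw⟩ := hy'
      obtain ⟨j, hj, hjW⟩ := hB' y W hW hyW
      exact ⟨j, hj, fun k hk z hz hzk =>
        hw k hk z (hjW (subset_closure hz)) (hjW (subset_closure hzk))⟩
    have hcpt : IsCompact (thickening (1 / ((n : ℝ) + 1)) (range h))ᶜ :=
      isOpen_thickening.isClosed_compl.isCompact
    have hcov : (thickening (1 / ((n : ℝ) + 1)) (range h))ᶜ ⊆
        ⋃ j : {j : ℕ // ∀ k : ℕ, 1 ≤ k → ∀ z ∈ B j, (g G)^[k] z ∉ B j}, B j := by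
      intro y hy
      have hyO : y ∉ Om (g G) := by
        rw [← hr]
        exact fun h1 => hy (self_subset_thickening (by positivity) _ h1)
      obtain ⟨j, hj, hj'⟩ := hopen y hyO
      exact mem_iUnion.2 ⟨⟨j, hj'⟩, hj⟩
    obtain ⟨t, ht⟩ := hcpt.elim_finite_subcover
      (fun j : {j : ℕ // ∀ k : ℕ, 1 ≤ k → ∀ z ∈ B j, (g G)^[k] z ∉ B j} => B j)
      (fun j => hB j) hcov
    refine ⟨t.sup Subtype.val + 1, fun y => ?_⟩
    by_cases hy : y ∈ thickening (1 / ((n : ℝ) + 1)) (range h)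
    · left
      obtain ⟨_, ⟨x, rfl⟩, hx⟩ := mem_thickening_iff.1 hy
      exact ⟨x, hx.le⟩
    · right
      obtain ⟨j, hjt, hj⟩ := mem_iUnion₂.1 (ht hy)
      exact ⟨j, Nat.lt_succ_of_le (Finset.le_sup (f := Subtype.val) hjt), hj, j.2⟩
  choose c hc using hc
  exact ⟨(h, (a, (b, c))), ⟨fun x y n => ha n x y, he, hb, hc⟩⟩

/-- **Generic continuity of conjugacies.** Let `g G`, `G ∈ X`, be a continuous family of maps of the
compact metric space `N` and let `f` be a map of a compact metric space `K`. There is a meagre set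
`M ⊆ X` such that for the `G ∉ M` for which `g G` on its nonwandering set is conjugate to `f` the
conjugacy can be chosen so that it depends continuously on `G`. -/
theorem generic_conj [Nonempty C(K, N)] (g : X → N → N) (hg : Continuous fun p : X × N => g p.1 p.2) (f : K → K) :
    ∃ (M : Set X) (h : X → C(K, N)), IsMeagre M ∧ ∀ G, G ∉ M →
      (∃ φ : C(K, N), Function.Injective φ ∧ range φ = Om (g G) ∧ ∀ x, φ (f x) = g G (φ x)) →
      (Function.Injective (h G) ∧ range (h G) = Om (g G) ∧ ∀ x, h G (f x) = g G (h G x)) ∧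
      ∀ δ : ℝ, 0 < δ → ∃ W : Set X, IsOpen W ∧ G ∈ W ∧ ∀ G' ∈ W, G' ∉ M →
        (∃ φ : C(K, N), Function.Injective φ ∧ range φ = Om (g G') ∧
          ∀ x, φ (f x) = g G' (φ x)) → dist (h G') (h G) < δ := by
  have i1 : PolishSpace (ℕ → ℕ) := inferInstance
  have i2 : PolishSpace ((ℕ → ℕ) × (ℕ → ℕ)) := inferInstance
  have i3 : PolishSpace ((ℕ → ℕ) × ((ℕ → ℕ) × (ℕ → ℕ))) := inferInstance
  have i4 : PolishSpace C(K, N) := inferInstance
  have i5 : PolishSpace (Wit K N) := inferInstance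
  obtain ⟨B, hB, hB'⟩ := exists_basis N
  obtain ⟨Φ, hΦc, hΦs⟩ := PolishSpace.exists_nat_nat_continuous_surjective (Wit K N)
  obtain ⟨M, σ, hM, hσ⟩ := uniformize {p : X × (ℕ → ℕ) | Rl g f B (p.1, Φ p.2)}
    ((rl_closed hg f B hB).preimage (continuous_fst.prodMk (hΦc.comp continuous_snd)))
  have hex : ∀ G, (∃ φ : C(K, N), Function.Injective φ ∧ range φ = Om (g G) ∧
      ∀ x, φ (f x) = g G (φ x)) → ∃ τ, (G, τ) ∈ {p : X × (ℕ → ℕ) | Rl g f B (p.1, Φ p.2)} := by
    rintro G ⟨φ, h1, h2, h3⟩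
    obtain ⟨w, hw⟩ := rl_complete hB hB' φ h1 h2 h3
    obtain ⟨τ, rfl⟩ := hΦs w
    exact ⟨τ, hw⟩
  refine ⟨M, fun G => (Φ (σ G)).1, hM, fun G hG hφ => ?_⟩
  obtain ⟨h1, h2⟩ := hσ G hG (hex G hφ)
  refine ⟨rl_sound hB hB' h1, fun δ hδ => ?_⟩
  have hc : ContinuousAt (fun τ => (Φ τ).1) (σ G) := (continuous_fst.comp hΦc).continuousAt
  have hn : (fun τ => (Φ τ).1) ⁻¹' ball ((Φ (σ G)).1) δ ∈ 𝓝 (σ G) := hc (ball_mem_nhds _ hδ)
  rw [nhds_pi, Filter.mem_pi] at hn
  obtain ⟨I, hI, t, ht, hsub⟩ := hn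
  obtain ⟨n, hn⟩ := hI.bddAbove
  obtain ⟨W, hW, hGW, h3⟩ := h2 (n + 1)
  refine ⟨W, hW, hGW, fun G' hG' hG'M hφ' => ?_⟩
  have h4 : σ G' ∈ (fun τ => (Φ τ).1) ⁻¹' ball ((Φ (σ G)).1) δ := by
    refine hsub fun i hi => ?_
    rw [h3 G' hG' hG'M (hex G' hφ') i (Nat.lt_succ_of_le (hn hi))]
    exact mem_of_mem_nhds (ht i)
  exact h4

end rel

end Pool.Agent.V8H52.OS
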